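import Pool.Agent.P.MP_b2ceab_nt.Loc

/-! Upper densities. -/

namespace Pool.Agent.P.MP_b2ceab_nt

open Finset Filter Function

/-- upper density at most `δ` -/
def Sm (P : ℕ → Prop) (δ : ℝ) : Prop :=
  ∀ η : ℝ, 0 < η → ∀ᶠ X : ℕ in atTop, ∑ x ∈ range X, ind (P x) ≤ (δ + η) * X

theorem ind_mono {P Q : Prop} (h : P → Q) : ind P ≤ ind Q := by
  by_cases a : P
  · rw [ind_of a, ind_of (h a)]
  · rw [ind_not a]; exact (ind_mem _).1

theorem ind_le {P : Prop} {c : ℝ} (h0 : 0 ≤ c) (h : P → 1 ≤ c) : ind P ≤ c := by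
  by_cases a : P
  · rw [ind_of a]; exact h a
  · rwa [ind_not a]

theorem cnt_le {α β : Type*} (S : Finset α) (U : Finset β) {P : α → Prop} {Q : β → Prop}
    (f : β → α) (h : ∀ x ∈ S, P x → ∃ u ∈ U, Q u ∧ f u = x) :
    ∑ x ∈ S, ind (P x) ≤ ∑ u ∈ U, ind (Q u) := by
  classical
  rw [sum_ind, sum_ind]
  have : S.filter P ⊆ (U.filter Q).image f := fun x hx => by
    obtain ⟨u, a, b, c⟩ := h x (mem_filter.1 hx).1 (mem_filter.1 hx).2
    exact mem_image.2 ⟨u, mem_filter.2 ⟨a, b⟩, c⟩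
  exact_mod_cast (card_le_card this).trans card_image_le

theorem Sm.mono {P Q : ℕ → Prop} {δ δ' : ℝ} (h : Sm Q δ) (hP : ∀ x, P x → Q x) (hδ : δ ≤ δ') :
    Sm P δ' := fun η hη => (h η hη).mono fun X hX =>
  (sum_le_sum fun x _ => ind_mono (hP x)).trans (hX.trans (by gcongr))

theorem Sm.or {P Q : ℕ → Prop} {a b : ℝ} (h1 : Sm P a) (h2 : Sm Q b) :
    Sm (fun x => P x ∨ Q x) (a + b) := fun η hη => by
  filter_upwards [h1 _ (half_pos hη), h2 _ (half_pos hη)] with X a1 a2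
  have : ∑ x ∈ range X, ind (P x ∨ Q x) ≤ ∑ x ∈ range X, (ind (P x) + ind (Q x)) :=
    sum_le_sum fun x _ => ind_le (add_nonneg (ind_mem _).1 (ind_mem _).1) fun h => by
      rcases h with h | h <;> rw [ind_of h] <;> linarith [(ind_mem (P x)).1, (ind_mem (Q x)).1]
  rw [sum_add_distrib] at this
  linarith

theorem Sm.ex {ι : Type*} (S : Finset ι) {P : ι → ℕ → Prop} {a : ι → ℝ}
    (h : ∀ i ∈ S, Sm (P i) (a i)) : Sm (fun x => ∃ i ∈ S, P i x) (∑ i ∈ S, a i) := by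
  classical
  induction S using Finset.induction_on with
  | empty => exact fun η hη => Eventually.of_forall fun X => by simp [ind]; positivity
  | insert i s hi ih =>
    rw [sum_insert hi]
    exact ((h i (mem_insert_self _ _)).or (ih fun j hj => h j (mem_insert_of_mem hj))).mono
      (fun x hx => by simpa using hx) le_rfl

theorem Sm.of_le {P : ℕ → Prop} {δ C : ℝ}
    (h : ∀ X : ℕ, ∑ x ∈ range X, ind (P x) ≤ δ * X + C) : Sm P δ := fun η hη => by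
  filter_upwards [tendsto_natCast_atTop_atTop.eventually_ge_atTop (C / η)] with X hX
  rw [div_le_iff₀ hη] at hX
  linarith [h X]

theorem Sm.zero {P : ℕ → Prop} (h : ∀ δ, 0 < δ → Sm P δ) : Sm P 0 := fun η hη => by
  simpa using h _ (half_pos hη) _ (half_pos hη)

theorem Sm_per {d : ℕ} (hd : 0 < d) {φ : ℤ → ℝ} (hφ : Periodic φ d)
    (h : ∀ x, 0 ≤ φ x ∧ φ x ≤ 1) {P : ℕ → Prop} {c : ℝ} (hc : 0 ≤ c)
    (hP : ∀ x, P x → 1 ≤ c * φ x) : Sm P (c * av d φ) := by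
  refine Sm.of_le (C := c * d) fun X => ?_
  have a := (abs_le.1 (per_sum hd hφ h 0 X)).2
  simp only [zero_add] at a
  refine (sum_le_sum fun (x : ℕ) _ => ind_le (mul_nonneg hc (h x).1) (hP x)).trans ?_
  rw [← mul_sum]
  nlinarith

theorem Sm_prod (E : Finset ℕ) (hE : ∀ p ∈ E, p.Prime) (F : ℕ → ℤ → ℝ)
    (hF : ∀ p ∈ E, Periodic (F p) p) (h : ∀ p ∈ E, ∀ x, 0 ≤ F p x ∧ F p x ≤ 1)
    {P : ℕ → Prop} {c : ℝ} (hc : 0 ≤ c) (hP : ∀ x, P x → 1 ≤ c * ∏ p ∈ E, F p x) :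
    Sm P (c * ∏ p ∈ E, av p (F p)) := by
  rw [← av_prod E hE F hF]
  exact Sm_per (prod_pos fun p hp => (hE p hp).pos) (per_prod E F hF)
    (fun x => prod_mem E fun p hp => h p hp x) hc hP

end Pool.Agent.P.MP_b2ceab_nt
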