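import Pool.Agent.P.MP_b2ceab_nt.Storm

/-! Reduction to a divisor of `x ^ 2 + 1` with quadratic conditions. -/

namespace Pool.Agent.P.MP_b2ceab_nt

/-- equal prime supports on the first three levels -/
def Part (x y : ℕ) : Prop :=
  ∀ n : ℕ, 1 ≤ n → n ≤ 3 → ∀ p : ℕ, p.Prime →
    ((p : ℤ) ∣ (x : ℤ) ^ 2 ^ n - 1 ↔ (p : ℤ) ∣ (y : ℤ) ^ 2 ^ n - 1)

/-- the quadratic conditions -/
def Cond (e : ℕ) (D x : ℤ) : Prop :=
  ∀ p : ℕ, p.Prime → p ≠ 2 → (p : ℤ) ∣ (x ^ 2 - 1) * (x ^ 4 + 1) →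
    IsSquare ((D : ZMod p) * ((x : ZMod p) ^ 2 + 1) ^ e)

theorem lev {u v : ℤ} {p : ℕ} (hp : p.Prime) (h1 : (p : ℤ) ∣ u - 1 ↔ (p : ℤ) ∣ v - 1)
    (h2 : (p : ℤ) ∣ u ^ 2 - 1 ↔ (p : ℤ) ∣ v ^ 2 - 1) (h : (p : ℤ) ∣ u + 1) : (p : ℤ) ∣ v + 1 := by
  have a1 : (p : ℤ) ∣ (v - 1) * (v + 1) := by
    rw [show (v - 1) * (v + 1) = v ^ 2 - 1 by ring, ← h2,
      show u ^ 2 - 1 = (u - 1) * (u + 1) by ring]
    exact dvd_mul_of_dvd_right h _
  rcases (Nat.prime_iff_prime_int.1 hp).dvd_or_dvd a1 with a | a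
  · have := dvd_add a (dvd_sub h (h1.2 a))
    rwa [show v - 1 + (u + 1 - (u - 1)) = v + 1 by ring] at this
  · exact a

theorem Part.symm {x y : ℕ} (h : Part x y) : Part y x := fun n a b p hp => (h n a b p hp).symm

theorem Part.l0 {x y : ℕ} (h : Part x y) {p : ℕ} (hp : p.Prime) :
    (p : ℤ) ∣ (x : ℤ) ^ 2 - 1 ↔ (p : ℤ) ∣ (y : ℤ) ^ 2 - 1 := h 1 (by norm_num) (by norm_num) p hp

theorem Part.l1 {x y : ℕ} (h : Part x y) {p : ℕ} (hp : p.Prime)
    (a : (p : ℤ) ∣ (x : ℤ) ^ 2 + 1) : (p : ℤ) ∣ (y : ℤ) ^ 2 + 1 := by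
  refine lev hp (h.l0 hp) ?_ a
  rw [← pow_mul, ← pow_mul]
  exact h 2 (by norm_num) (by norm_num) p hp

theorem Part.l2 {x y : ℕ} (h : Part x y) {p : ℕ} (hp : p.Prime)
    (a : (p : ℤ) ∣ (x : ℤ) ^ 4 + 1) : (p : ℤ) ∣ (y : ℤ) ^ 4 + 1 := by
  refine lev hp (h 2 (by norm_num) (by norm_num) p hp) ?_ a
  rw [← pow_mul, ← pow_mul]
  exact h 3 (by norm_num) (by norm_num) p hp

theorem two_ne {p : ℕ} (hp : p.Prime) (h2 : p ≠ 2) : (2 : ZMod p) ≠ 0 := fun h =>
  h2 ((Nat.prime_dvd_prime_iff_eq hp Nat.prime_two).1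
    ((ZMod.natCast_eq_zero_iff 2 p).1 (by exact_mod_cast h)))

theorem Part.loc {x y : ℕ} (h : Part x y) {p : ℕ} (hp : p.Prime) (h2 : p ≠ 2)
    (a : (p : ℤ) ∣ ((x : ℤ) ^ 2 - 1) * ((x : ℤ) ^ 4 + 1)) :
    ∃ r : ZMod p, r ≠ 0 ∧ ((x : ZMod p) ^ 2 + 1) * ((y : ZMod p) ^ 2 + 1) = r ^ 2 := by
  have := Fact.mk hp
  have t := two_ne hp h2
  rcases (Nat.prime_iff_prime_int.1 hp).dvd_or_dvd a with b | b
  · have c1 := (ZMod.intCast_zmod_eq_zero_iff_dvd _ p).2 b
    have c2 := (ZMod.intCast_zmod_eq_zero_iff_dvd _ p).2 ((h.l0 hp).1 b)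
    push_cast at c1 c2
    exact ⟨2, t, by linear_combination ((y : ZMod p) ^ 2 + 1) * c1 + 2 * c2⟩
  · have c1 := (ZMod.intCast_zmod_eq_zero_iff_dvd _ p).2 b
    have c2 := (ZMod.intCast_zmod_eq_zero_iff_dvd _ p).2 (h.l2 hp b)
    push_cast at c1 c2
    have c3 : ((y : ZMod p) ^ 2 - (x : ZMod p) ^ 2) * ((y : ZMod p) ^ 2 + (x : ZMod p) ^ 2) = 0 := by
      linear_combination c2 - c1
    rcases mul_eq_zero.1 c3 with c | c
    · refine ⟨(x : ZMod p) ^ 2 + 1, fun e => t ?_, by linear_combination ((x : ZMod p) ^ 2 + 1) * c⟩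
      linear_combination c1 - ((x : ZMod p) ^ 2 - 1) * e
    · have c4 : ((x : ZMod p) - (x : ZMod p) ^ 3) ^ 2 = 2 := by
        linear_combination ((x : ZMod p) ^ 2 - 2) * c1
      refine ⟨(x : ZMod p) - (x : ZMod p) ^ 3, fun e => t ?_, ?_⟩
      · rw [← c4, e]; simp
      · rw [c4]; linear_combination ((x : ZMod p) ^ 2 + 1) * c - c1

theorem not_four (x : ℕ) : ¬ 2 ^ 2 ∣ x ^ 2 + 1 := by
  intro h
  have h5 : (x ^ 2 + 1) % 4 = 0 := Nat.mod_eq_zero_of_dvd h
  have : x % 4 = 0 ∨ x % 4 = 1 ∨ x % 4 = 2 ∨ x % 4 = 3 := by omega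
  rcases this with a | a | a | a <;> simp [pow_two, Nat.add_mod, Nat.mul_mod, a] at h5

theorem red {x y : ℕ} (hx : 0 < x) (hy : 0 < y) (hne : y ≠ x) (h : Part x y) :
    (∃ D E : ℕ, D * E = x ^ 2 + 1 ∧ D ≤ E ∧ 1 < D ∧ Odd D ∧ Squarefree D ∧ Cond 0 D x) ∨
    ∃ B E t : ℕ, B * E = x ^ 2 + 1 ∧ B ≤ E ∧ 1 < B ∧ y ^ 2 + 1 = B * t ^ 2 ∧ Cond 1 B x := by
  obtain ⟨D, w, hD, sD⟩ := Nat.sq_mul_squarefree ((x ^ 2 + 1) * (y ^ 2 + 1))
  obtain ⟨B, t, hB, sB⟩ := Nat.sq_mul_squarefree (y ^ 2 + 1)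
  have A0 : x ^ 2 + 1 ≠ 0 := by positivity
  have B0 : y ^ 2 + 1 ≠ 0 := by positivity
  have w0 : w ≠ 0 := by rintro rfl; exact mul_ne_zero A0 B0 (by rw [← hD]; simp)
  have t0 : t ≠ 0 := by rintro rfl; exact B0 (by rw [← hB]; simp)
  have sup : ∀ p : ℕ, p.Prime → (p ∣ x ^ 2 + 1 ↔ p ∣ y ^ 2 + 1) := fun p hp =>
    ⟨fun a => by exact_mod_cast h.l1 hp (by exact_mod_cast a),
      fun a => by exact_mod_cast h.symm.l1 hp (by exact_mod_cast a)⟩
  have fac : ∀ p : ℕ, p.Prime →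
      2 * w.factorization p + D.factorization p =
        (x ^ 2 + 1).factorization p + (y ^ 2 + 1).factorization p ∧
      2 * t.factorization p + B.factorization p = (y ^ 2 + 1).factorization p ∧
      D.factorization p ≤ 1 ∧ B.factorization p ≤ 1 ∧
      (1 ≤ (x ^ 2 + 1).factorization p ↔ 1 ≤ (y ^ 2 + 1).factorization p) := fun p hp => by
    have f1 := congrArg (fun n => n.factorization p) hD
    have f2 := congrArg (fun n => n.factorization p) hB
    simp only [Nat.factorization_mul (pow_ne_zero 2 w0) sD.ne_zero, Nat.factorization_mul A0 B0,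
      Nat.factorization_mul (pow_ne_zero 2 t0) sB.ne_zero, Nat.factorization_pow,
      Finsupp.add_apply, Finsupp.smul_apply, smul_eq_mul] at f1 f2
    refine ⟨f1, f2, sD.natFactorization_le_one p, sB.natFactorization_le_one p, ?_⟩
    rw [← hp.dvd_iff_one_le_factorization A0, ← hp.dvd_iff_one_le_factorization B0]
    exact sup p hp
  have dv : D * B ∣ x ^ 2 + 1 := by
    rw [← Nat.factorization_prime_le_iff_dvd (mul_ne_zero sD.ne_zero sB.ne_zero) A0]
    intro p hp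
    rw [Nat.factorization_mul sD.ne_zero sB.ne_zero, Finsupp.add_apply]
    have := fac p hp
    omega
  obtain ⟨c, hc⟩ := dv
  have c0 : 0 < c := Nat.pos_of_ne_zero (by rintro rfl; exact A0 (by rw [hc]; simp))
  have D0 := Nat.pos_of_ne_zero sD.ne_zero
  have B1 := Nat.pos_of_ne_zero sB.ne_zero
  rcases le_total D B with hle | hle
  · refine Or.inl ⟨D, B * c, by rw [hc]; ring, hle.trans (Nat.le_mul_of_pos_right _ c0), ?_, ?_,
      sD, fun p hp h2 a => ?_⟩
    · by_contra h1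
      obtain rfl : D = 1 := by omega
      have e : w ^ 2 = (t * B) ^ 2 * c := by rw [← mul_one (w ^ 2), hD, hc, ← hB]; ring
      obtain ⟨s, rfl⟩ := (Nat.pow_dvd_pow_iff two_ne_zero).1 ⟨c, e⟩
      rw [mul_pow (t * B)] at e
      have e2 := Nat.eq_of_mul_eq_mul_left (by positivity) e
      have := storm (W := B) (x := x) (y := y) (s := s) (t := t) (by exact_mod_cast hx)
        (by exact_mod_cast hy) (by rw [← e2, one_mul] at hc; exact_mod_cast hc)
        (by rw [mul_comm]; exact_mod_cast hB.symm) fun q hq => ⟨h.l1 hq, h.symm.l1 hq⟩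
      exact hne (by exact_mod_cast this.symm)
    · rw [← Nat.not_even_iff_odd, even_iff_two_dvd,
        Nat.prime_two.dvd_iff_one_le_factorization sD.ne_zero]
      have a1 := fac 2 Nat.prime_two
      have a2 := not_four x
      have a3 := not_four y
      rw [Nat.prime_two.pow_dvd_iff_le_factorization (by assumption)] at a2 a3
      omega
    · have := Fact.mk hp
      obtain ⟨r, r0, hr⟩ := h.loc hp h2 a
      have e := congrArg (fun n : ℕ => (n : ZMod p)) hD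
      push_cast at e ⊢
      rw [hr] at e
      have w1 : (w : ZMod p) ≠ 0 := fun z => r0 (by
        rw [z] at e; exact pow_eq_zero_iff two_ne_zero |>.1 (by rw [← e]; simp))
      exact ⟨r / w, by field_simp; linear_combination e⟩
  · refine Or.inr ⟨B, D * c, t, by rw [hc]; ring, hle.trans (Nat.le_mul_of_pos_right _ c0), ?_,
      by rw [← hB, mul_comm], fun p hp h2 a => ?_⟩
    · by_contra h1
      obtain rfl : B = 1 := by omega
      have a1 : y < t := lt_of_pow_lt_pow_left₀ 2 (Nat.zero_le _) (by omega)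
      have a2 : (y + 1) ^ 2 ≤ t ^ 2 := Nat.pow_le_pow_left a1 2
      nlinarith
    · have := Fact.mk hp
      obtain ⟨r, r0, hr⟩ := h.loc hp h2 a
      have e := congrArg (fun n : ℕ => (n : ZMod p)) hB
      push_cast at e ⊢
      rw [← e] at hr
      have w1 : (t : ZMod p) ≠ 0 := fun z => r0 (by
        rw [z] at hr; exact pow_eq_zero_iff two_ne_zero |>.1 (by rw [← hr]; simp))
      exact ⟨r / t, by field_simp; linear_combination hr⟩

/-- compatible representations as sums of two squares -/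
theorem rep (n : ℕ) : ∀ D E x : ℤ, x.natAbs = n → 0 < D → 0 < E → D * E = x ^ 2 + 1 →
    ∃ a b c d : ℤ, D = a ^ 2 + b ^ 2 ∧ E = c ^ 2 + d ^ 2 ∧ x = a * c + b * d ∧
      a * d - b * c = 1 := by
  induction n using Nat.strong_induction_on with
  | _ n ih =>
    intro D E x hn hD hE h
    wlog hle : D ≤ E generalizing D E
    · obtain ⟨a, b, c, d, h1, h2, h3, h4⟩ := this E D hE hD (by rw [mul_comm, h]) (by omega)
      exact ⟨d, c, b, a, by linarith, by linarith, by linarith, by linarith⟩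
    have k : x ≠ 0 → D ≤ |x| := fun h0 => by
      by_contra hc
      have a1 : (|x| + 1) * (|x| + 1) ≤ D * E :=
        mul_le_mul (by omega) (by omega) (by positivity) hD.le
      have := abs_pos.2 h0
      have := sq_abs x
      nlinarith
    rcases lt_trichotomy x 0 with h0 | h0 | h0
    · have k1 := k h0.ne
      rw [abs_of_neg h0] at k1
      obtain ⟨a, b, c, d, h1, h2, h3, h4⟩ := ih (x + D).natAbs (by omega) D (E + 2 * x + D) (x + D)
        rfl hD (by nlinarith [sq_nonneg (x + D)]) (by linear_combination h)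
      exact ⟨a, b, c - a, d - b, h1, by linear_combination h2 - 2 * h3 + h1,
        by linear_combination h3 - h1, by linear_combination h4⟩
    · rw [h0] at h
      have e1 : D = 1 := by nlinarith
      have e2 : E = 1 := by rw [e1] at h; linarith
      exact ⟨1, 0, 0, 1, by simp [e1], by simp [e2], by simp [h0], by simp⟩
    · have k1 := k h0.ne'
      rw [abs_of_pos h0] at k1
      obtain ⟨a, b, c, d, h1, h2, h3, h4⟩ := ih (x - D).natAbs (by omega) D (E - 2 * x + D) (x - D)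
        rfl hD (by nlinarith [sq_nonneg (x - D)]) (by linear_combination h)
      exact ⟨a, b, c + a, d + b, h1, by linear_combination h2 + 2 * h3 + h1,
        by linear_combination h3 + h1, by linear_combination h4⟩

/-- the residue class of `x` modulo `a ^ 2 + b ^ 2` depends only on `a` and `b` -/
theorem exists_nu : ∃ ν : ℤ → ℤ → ℤ, ∀ D E x : ℕ, D * E = x ^ 2 + 1 →
    ∃ a b : ℤ, (D : ℤ) = a ^ 2 + b ^ 2 ∧ (x : ℤ) = ν a b + (x / D : ℕ) * (a ^ 2 + b ^ 2) := by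
  classical
  refine ⟨fun a b => if h : ∃ z : ℤ × ℤ, a * z.2 - b * z.1 = 1 then
    (a * h.choose.1 + b * h.choose.2) % (a ^ 2 + b ^ 2) else 0, fun D E x h => ?_⟩
  have h0 : 0 < D * E := by rw [h]; positivity
  obtain ⟨a, b, c, d, h1, -, h3, h4⟩ := rep _ D E x rfl
    (by exact_mod_cast Nat.pos_of_mul_pos_right h0) (by exact_mod_cast Nat.pos_of_mul_pos_left h0)
    (by exact_mod_cast h)
  have hex : ∃ z : ℤ × ℤ, a * z.2 - b * z.1 = 1 := ⟨(c, d), h4⟩
  refine ⟨a, b, h1, ?_⟩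
  simp only [dif_pos hex]
  have h5 := hex.choose_spec
  generalize hex.choose = z at h5
  have e : (a * z.1 + b * z.2) % (a ^ 2 + b ^ 2) = x % (a ^ 2 + b ^ 2) := by
    refine (Int.emod_emod_of_dvd _ dvd_rfl).symm.trans (Int.emod_eq_emod_iff_emod_sub_eq_zero.2 ?_)
    rw [Int.emod_sub_emod]
    refine Int.emod_eq_zero_of_dvd ⟨d * z.1 - c * z.2, ?_⟩
    rw [h3]
    linear_combination (-(a * z.1 + b * z.2)) * h4 + (a * c + b * d) * h5
  rw [e, ← h1]
  push_cast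
  linarith [Int.emod_add_mul_ediv (x : ℤ) D]

end Pool.Agent.P.MP_b2ceab_nt
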