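import Pool.Agent.P.MP_b2ceab_nt.Per
import Pool.Agent.P.MP_b2ceab_nt.Red

/-! Local densities. -/

namespace Pool.Agent.P.MP_b2ceab_nt

open Finset Function

open Classical in
/-- indicator -/
noncomputable def ind (P : Prop) : ℝ := if P then 1 else 0

theorem ind_of {P : Prop} (h : P) : ind P = 1 := if_pos h

theorem ind_not {P : Prop} (h : ¬ P) : ind P = 0 := if_neg h

theorem ind_mem (P : Prop) : 0 ≤ ind P ∧ ind P ≤ 1 := by
  unfold ind; split_ifs <;> norm_num

theorem sum_ind {α : Type*} (s : Finset α) (P : α → Prop) [DecidablePred P] :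
    ∑ a ∈ s, ind (P a) = (s.filter P).card := by
  rw [card_filter]; push_cast
  exact sum_congr rfl fun a _ => by unfold ind; congr

theorem av_zmod (p : ℕ) [NeZero p] (φ : ZMod p → ℝ) :
    av p (fun x => φ (x : ZMod p)) = (∑ z, φ z) / p := by
  unfold av
  congr 1
  refine sum_nbij' (fun r => (r : ZMod p)) ZMod.val (fun _ _ => mem_univ _)
    (fun z _ => mem_range.2 (ZMod.val_lt z)) (fun r hr => ZMod.val_cast_of_lt (mem_range.1 hr))
    (fun z _ => ZMod.natCast_zmod_val z) fun r _ => by simp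

theorem per_zmod (p : ℕ) (φ : ZMod p → ℝ) : Periodic (fun x : ℤ => φ (x : ZMod p)) p :=
  fun x => by simp

section field

variable {p : ℕ} [Fact p.Prime]

theorem sq_roots (c : ZMod p) : ∑ b : ZMod p, ind (b ^ 2 = c) ≤ 2 := by
  rw [sum_ind]
  by_cases h : ∃ r : ZMod p, r ^ 2 = c
  · obtain ⟨r, rfl⟩ := h
    have : (univ.filter fun b : ZMod p => b ^ 2 = r ^ 2) ⊆ {r, -r} := fun b hb => by
      simpa using sq_eq_sq_iff_eq_or_eq_neg.1 (mem_filter.1 hb).2
    exact_mod_cast (card_le_card this).trans card_le_two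
  · rw [filter_false_of_mem fun b _ hb => h ⟨b, hb⟩]; simp

theorem zero_le_two : ∑ a : ZMod p, ∑ b : ZMod p, ind (a ^ 2 + b ^ 2 = 0) ≤ 2 * p := by
  have : ∀ a : ZMod p, ∑ b : ZMod p, ind (a ^ 2 + b ^ 2 = 0) ≤ 2 := fun a => by
    refine le_trans (le_of_eq (sum_congr rfl fun b _ => ?_)) (sq_roots (-a ^ 2))
    congr 1
    exact propext ⟨fun h => by linear_combination h, fun h => by linear_combination h⟩
  refine (sum_le_sum fun a _ => this a).trans ?_
  simp [ZMod.card, mul_comm]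

theorem zero_ge (h4 : p % 4 = 1) :
    2 * ((p : ℝ) - 1) ≤ ∑ a : ZMod p, ∑ b : ZMod p, ind (a ^ 2 + b ^ 2 = 0) := by
  obtain ⟨i, hi⟩ := ZMod.exists_sq_eq_neg_one_iff.2 (show p % 4 ≠ 3 by omega)
  have t := two_ne (p := p) Fact.out (by omega)
  have i0 : i ≠ 0 := by rintro rfl; simp at hi
  have : ∀ a ∈ univ.erase (0 : ZMod p), 2 ≤ ∑ b : ZMod p, ind (a ^ 2 + b ^ 2 = 0) := fun a ha => by
    have ne : i * a ≠ -(i * a) := fun e => by
      have : 2 * (i * a) = 0 := by linear_combination e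
      exact mul_ne_zero t (mul_ne_zero i0 (ne_of_mem_erase ha)) this
    rw [sum_ind]
    have : ({i * a, -(i * a)} : Finset (ZMod p)) ⊆ univ.filter fun b => a ^ 2 + b ^ 2 = 0 := by
      intro b hb
      simp only [mem_insert, mem_singleton] at hb
      rcases hb with rfl | rfl <;> exact mem_filter.2 ⟨mem_univ _, by linear_combination -a ^ 2 * hi⟩
    have := card_le_card this
    rw [card_pair ne] at this
    exact_mod_cast this
  refine le_trans ?_ ((sum_le_sum this).trans (sum_le_sum_of_subset_of_nonneg (subset_univ _)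
    fun a _ _ => sum_nonneg fun b _ => (ind_mem _).1))
  rw [sum_const, card_erase_of_mem (mem_univ _), card_univ, ZMod.card, nsmul_eq_mul,
    Nat.cast_sub (Fact.out : p.Prime).pos]
  push_cast; linarith

theorem half (h2 : p ≠ 2) {c : ZMod p} (hc : c ≠ 0) :
    2 * ∑ a : ZMod p, ∑ b : ZMod p, ind (¬ IsSquare ((a ^ 2 + b ^ 2) * c)) +
      ∑ a : ZMod p, ∑ b : ZMod p, ind (a ^ 2 + b ^ 2 = 0) = (p : ℝ) ^ 2 := by
  obtain ⟨n, hn⟩ := FiniteField.exists_nonsquare (F := ZMod p) (by rwa [ZMod.ringChar_zmod_n])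
  obtain ⟨u, v, rfl⟩ := ZMod.sq_add_sq p n
  have n0 : u ^ 2 + v ^ 2 ≠ 0 := fun e => hn (e ▸ IsSquare.zero)
  set σ : ZMod p × ZMod p → ZMod p × ZMod p := fun z => (z.1 * u - z.2 * v, z.1 * v + z.2 * u)
  have inj : Injective σ := fun z w e => by
    have e1 : z.1 * u - z.2 * v = w.1 * u - w.2 * v := congrArg Prod.fst e
    have e2 : z.1 * v + z.2 * u = w.1 * v + w.2 * u := congrArg Prod.snd e
    refine Prod.ext (mul_right_cancel₀ n0 ?_) (mul_right_cancel₀ n0 ?_)
    · linear_combination u * e1 + v * e2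
    · linear_combination u * e2 - v * e1
  have e := (Finite.injective_iff_bijective.1 inj).sum_comp
    fun z => ind (¬ IsSquare ((z.1 ^ 2 + z.2 ^ 2) * c))
  rw [Fintype.sum_prod_type, Fintype.sum_prod_type] at e
  rw [two_mul]
  nth_rewrite 1 [← e]
  simp only [← sum_add_distrib]
  have one : ∀ a b : ZMod p, ind (¬ IsSquare (((σ (a, b)).1 ^ 2 + (σ (a, b)).2 ^ 2) * c)) +
      ind (¬ IsSquare ((a ^ 2 + b ^ 2) * c)) + ind (a ^ 2 + b ^ 2 = 0) = 1 := fun a b => by
    rw [show ((σ (a, b)).1 ^ 2 + (σ (a, b)).2 ^ 2) * c = (a ^ 2 + b ^ 2) * c * (u ^ 2 + v ^ 2) by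
      simp only [σ]; ring]
    by_cases h0 : a ^ 2 + b ^ 2 = 0
    · rw [ind_of h0, h0, zero_mul, zero_mul, ind_not (not_not.2 IsSquare.zero)]; ring
    · have z0 := mul_ne_zero h0 hc
      have k := quadraticChar_neg_one_iff_not_isSquare.2 hn
      rw [ind_not h0]
      by_cases h1 : IsSquare ((a ^ 2 + b ^ 2) * c)
      · rw [ind_not (not_not.2 h1), ind_of]
        · ring
        · rw [← quadraticChar_neg_one_iff_not_isSquare, map_mul, k,
            (quadraticChar_one_iff_isSquare z0).2 h1]; ring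
      · rw [ind_of h1, ind_not]
        · ring
        · rw [not_not, ← quadraticChar_one_iff_isSquare (mul_ne_zero z0 n0), map_mul, k,
            quadraticChar_neg_one_iff_not_isSquare.2 h1]; ring
  simp only [one]
  simp [ZMod.card, pow_two]

end field

open Classical in
/-- a primitive eighth root of unity, if there is one -/
noncomputable def rt (p : ℕ) : ZMod p := if h : ∃ r : ZMod p, r ^ 4 = -1 then h.choose else 1

/-- the sifted residue classes -/
noncomputable def Om (p : ℕ) : Finset (ZMod p) := {1, -1, rt p, -rt p}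

theorem rt_spec (p : ℕ) : rt p ^ 4 = -1 ∨ rt p = 1 := by
  unfold rt; split_ifs with h
  · exact Or.inl h.choose_spec
  · exact Or.inr rfl

theorem Om_spec {p : ℕ} {z : ZMod p} (h : z ∈ Om p) : z ^ 2 = 1 ∨ z ^ 4 = -1 := by
  simp only [Om, mem_insert, mem_singleton] at h
  rcases h with rfl | rfl | rfl | rfl
  · simp
  · simp
  · exact (rt_spec p).symm.imp (fun e => by simp [e]) id
  · exact (rt_spec p).symm.imp (fun e => by simp [e]) fun e => by linear_combination e

theorem Om_card {p : ℕ} [Fact p.Prime] (h2 : p ≠ 2) :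
    (2 : ℝ) + 2 * ind (p % 8 = 1) ≤ (Om p).card ∧ ((Om p).card : ℝ) ≤ 4 := by
  have t := two_ne (p := p) Fact.out h2
  have n1 : (1 : ZMod p) ≠ -1 := fun e => t (by linear_combination e)
  refine ⟨?_, by exact_mod_cast card_le_four⟩
  by_cases h : p % 8 = 1
  · obtain ⟨i, hi⟩ := ZMod.exists_sq_eq_neg_one_iff.2 (show p % 4 ≠ 3 by omega)
    obtain ⟨s, hs⟩ := (ZMod.exists_sq_eq_two_iff h2).2 (Or.inl h)
    have s0 : s ≠ 0 := by rintro rfl; exact t (by simpa using hs)
    have ex : ∃ r : ZMod p, r ^ 4 = -1 := ⟨(1 + i) / s, by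
      field_simp
      linear_combination (-(s * s) - 2) * hs + (-(i * i) - 4 * i - 5) * hi⟩
    have e : rt p ^ 4 = -1 := by rw [rt, dif_pos ex]; exact ex.choose_spec
    have a1 : rt p ≠ 1 := fun z => n1 (by rw [← e, z]; simp)
    have a2 : rt p ≠ -1 := fun z => n1 (by rw [← e, z]; ring)
    have a3 : rt p ≠ -rt p := fun z => by
      have : 2 * rt p = 0 := by linear_combination z
      rw [(mul_eq_zero.1 this).resolve_left t] at e
      simp at e
    rw [ind_of h, Om, card_insert_of_notMem, card_insert_of_notMem, card_pair a3]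
    · norm_num
    · simp only [mem_insert, mem_singleton, neg_inj, not_or]
      exact ⟨a2.symm, a1.symm⟩
    · simp only [mem_insert, mem_singleton, not_or]
      exact ⟨n1, a1.symm, fun z => a2 (by linear_combination z)⟩
  · have : ({1, -1} : Finset (ZMod p)) ⊆ Om p := fun z hz => by
      simp only [Om, mem_insert, mem_singleton] at hz ⊢; tauto
    have := card_le_card this
    rw [card_pair n1] at this
    rw [ind_not h, mul_zero, add_zero]
    exact_mod_cast this

/-- the sifted event -/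
noncomputable def bz (e p : ℕ) (a b x : ZMod p) : ℝ :=
  ind (7 ≤ p ∧ p.Prime ∧ x ∈ Om p ∧ ¬ IsSquare ((a ^ 2 + b ^ 2) * (x ^ 2 + 1) ^ e))

/-- its mean value in the last variable -/
noncomputable def hz (e p : ℕ) (a b : ZMod p) : ℝ := av p fun x => bz e p a b x

/-- its mean value -/
noncomputable def gz (e p : ℕ) : ℝ := av p fun a => av p fun b => hz e p a b

theorem bz_cond {e : ℕ} {a b x : ℤ} (h : Cond e (a ^ 2 + b ^ 2) x) (p : ℕ) :
    bz e p a b x = 0 := by
  refine ind_not fun ⟨h1, hp, h2, h3⟩ => h3 ?_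
  have := h p hp (by omega) ((ZMod.intCast_zmod_eq_zero_iff_dvd _ p).1 (by
    push_cast
    rcases Om_spec h2 with e | e <;> rw [e] <;> simp))
  exact_mod_cast this

theorem av_bz (e : ℕ) {p : ℕ} (hp : p.Prime) (a b c : ℤ) :
    av p (fun t => bz e p a b ((c + t * (a ^ 2 + b ^ 2) : ℤ) : ZMod p)) = hz e p a b := by
  by_cases h : (p : ℤ) ∣ a ^ 2 + b ^ 2
  · have z : (a : ZMod p) ^ 2 + (b : ZMod p) ^ 2 = 0 := by
      exact_mod_cast (ZMod.intCast_zmod_eq_zero_iff_dvd _ p).2 h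
    have : ∀ x, bz e p a b x = 0 := fun x =>
      ind_not fun ⟨_, _, _, h3⟩ => h3 (by rw [z, zero_mul]; exact IsSquare.zero)
    simp [hz, this]
  · exact congrArg (· / (p : ℝ)) (per_aff hp.pos (per_zmod p (bz e p a b)) c
      ((Nat.prime_iff_prime_int.1 hp).irreducible.coprime_iff_not_dvd.2 h).symm)

theorem hz_mem (e p : ℕ) (a b : ZMod p) : 0 ≤ hz e p a b ∧ hz e p a b ≤ 1 :=
  av_mem fun _ => ind_mem _

theorem gz_nonneg (e p : ℕ) : 0 ≤ gz e p := (av_mem fun _ => av_mem fun _ => hz_mem _ _ _ _).1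

theorem gz_small (e : ℕ) {p : ℕ} (h : p < 7) : gz e p = 0 := by
  have : ∀ a b x, bz e p a b x = 0 := fun a b x => ind_not fun h1 => by omega
  simp [gz, hz, av, this]

theorem gz_bound (e : ℕ) {p : ℕ} (hp : p.Prime) (h7 : 7 ≤ p) :
    (1 + ind (p % 8 = 1)) / p - 4 / (p : ℝ) ^ 2 ≤ gz e p ∧ gz e p ≤ 2 / p := by
  have := Fact.mk hp
  have h2 : p ≠ 2 := by omega
  have t := two_ne hp h2
  have p0 : (7 : ℝ) ≤ p := by exact_mod_cast h7
  have e1 : gz e p = (∑ x ∈ Om p, ∑ a : ZMod p, ∑ b : ZMod p,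
      ind (¬ IsSquare ((a ^ 2 + b ^ 2) * (x ^ 2 + 1) ^ e))) / (p : ℝ) ^ 3 := by
    have a1 : ∀ a : ZMod p, av p (fun b => hz e p a b) =
        (∑ b : ZMod p, (∑ x : ZMod p, bz e p a b x) / p) / p := fun a => by
      rw [av_zmod p (hz e p a)]
      congr 1
      exact sum_congr rfl fun b _ => av_zmod p (bz e p a b)
    rw [gz, av_zmod p fun a => av p fun b => hz e p a b]
    simp only [a1, ← sum_div, div_div]
    congr 1
    · rw [sum_comm (s := Om p)]
      refine sum_congr rfl fun a _ => ?_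
      rw [sum_comm (s := Om p)]
      refine sum_congr rfl fun b _ => ?_
      rw [← sum_subset (f := bz e p a b) (subset_univ (Om p))
        fun x _ hx => ind_not fun h => hx h.2.2.1]
      refine sum_congr rfl fun x hx => ?_
      unfold bz; congr 1; simp [h7, hp, hx]
    · ring
  have k : ∀ x ∈ Om p, ((p : ℝ) ^ 2 - 2 * p) / 2 ≤ ∑ a : ZMod p, ∑ b : ZMod p,
      ind (¬ IsSquare ((a ^ 2 + b ^ 2) * (x ^ 2 + 1) ^ e)) ∧ ∑ a : ZMod p, ∑ b : ZMod p,
      ind (¬ IsSquare ((a ^ 2 + b ^ 2) * (x ^ 2 + 1) ^ e)) ≤ (p : ℝ) ^ 2 / 2 := fun x hx => by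
    have c0 : (x ^ 2 + 1) ^ e ≠ 0 := pow_ne_zero _ fun z => t (by
      rcases Om_spec hx with a | a
      · linear_combination z - a
      · linear_combination a - (x ^ 2 - 1) * z)
    have a1 := half h2 c0
    have a2 := zero_le_two (p := p)
    have a3 : 0 ≤ ∑ a : ZMod p, ∑ b : ZMod p, ind (a ^ 2 + b ^ 2 = 0) :=
      sum_nonneg fun _ _ => sum_nonneg fun _ _ => (ind_mem _).1
    constructor <;> linarith
  have k1 := card_nsmul_le_sum _ _ _ fun x hx => (k x hx).1
  have k2 := sum_le_card_nsmul _ _ _ fun x hx => (k x hx).2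
  rw [nsmul_eq_mul] at k1 k2
  obtain ⟨c1, c2⟩ := Om_card h2
  obtain ⟨i0, i1⟩ := ind_mem (p % 8 = 1)
  rw [e1]
  constructor
  · rw [le_div_iff₀ (by positivity)]
    refine le_trans ?_ k1
    refine le_trans ?_ (mul_le_mul_of_nonneg_right c1 (by nlinarith))
    rw [show ((1 + ind (p % 8 = 1)) / p - 4 / (p : ℝ) ^ 2) * (p : ℝ) ^ 3 =
      (1 + ind (p % 8 = 1)) * p ^ 2 - 4 * p by field_simp]
    nlinarith
  · rw [div_le_iff₀ (by positivity), show 2 / (p : ℝ) * p ^ 3 = 4 * (p ^ 2 / 2) by field_simp; ring]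
    exact k2.trans (mul_le_mul_of_nonneg_right c2 (by positivity))

end Pool.Agent.P.MP_b2ceab_nt
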