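import Pool.Agent.P.MP_b2ceab_nt.Win

/-! Assembly. -/

namespace Pool.Agent.P.MP_b2ceab_nt

open Finset Filter Topology

theorem mod_four {D E x : ℕ} (h : D * E = x ^ 2 + 1) (ho : Odd D) : D % 4 = 1 := by
  have h1 := Nat.odd_iff.1 ho
  obtain ⟨ν, hν⟩ := exists_nu
  obtain ⟨a, b, e, -⟩ := hν D E x h
  have : D % 4 ≠ 3 := fun c => (by decide : ∀ u v : ZMod 4, u ^ 2 + v ^ 2 ≠ 3) a b (by
    have := congrArg (fun n : ℤ => (n : ZMod 4)) e
    push_cast at this
    rw [← this, ← ZMod.natCast_mod, c]; rfl)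
  omega

theorem main : Sm (fun x => ∃ y, 0 < y ∧ y ≠ x ∧ Part x y) 0 := Sm.zero fun δ hδ => by
  classical
  obtain ⟨Z, hZ⟩ := mid (half_pos hδ)
  have h0 : Sm (fun x => x < 2) 0 := Sm.of_le (C := 2) fun X => by
    rw [sum_ind, zero_mul, zero_add]
    exact_mod_cast (card_le_card fun x hx => mem_range.2 (mem_filter.1 hx).2).trans (card_range _).le
  refine (((((h0.or (Sm.ex ((range Z).filter fun D => D % 4 = 1 ∧ 1 < D ∧ Squarefree D)
    fun D hD => have a := (mem_filter.1 hD).2; smallD a.1 a.2.1 a.2.2)).or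
    (Sm.ex ((range Z).filter fun B => 1 < B) fun B hB => smallB (mem_filter.1 hB).2)).or
    (hZ 0)).or (hZ 1)).or (win Z)).mono ?_ (by simp)
  rintro x ⟨y, y0, ne, hP⟩
  by_contra c
  simp only [not_or, not_exists, not_and, not_lt, mem_filter, mem_range] at c
  obtain ⟨⟨⟨⟨⟨c1, c2⟩, c3⟩, c4⟩, c5⟩, c6⟩ := c
  rcases red (by omega) y0 ne hP with ⟨D, E, e, a1, a2, a3, a4, a5⟩ | ⟨D, E, t, e, a1, a2, a3, a5⟩
  · exact c4 D E e (not_lt.1 fun l => c2 D ⟨l, mod_four e a3, a2, a4⟩ a5) (c6 D E e a1) a5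
  · exact c5 D E e (not_lt.1 fun l => c3 D ⟨l, a2⟩ c1 y t a3 hP) (c6 D E e a1) a5

open Classical in
theorem final : Tendsto (fun X : ℕ =>
    (((Icc 1 X).filter fun x => ∃ y, 0 < y ∧ y ≠ x ∧ Part x y).card : ℝ) / X) atTop (𝓝 0) := by
  refine tendsto_order.2 ⟨fun a ha => Eventually.of_forall fun X => ha.trans_le (by positivity),
    fun a ha => ?_⟩
  filter_upwards [(tendsto_add_atTop_nat 1).eventually (main (a / 4) (by positivity)),
    eventually_ge_atTop 1] with X hX X1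
  have X2 : (1 : ℝ) ≤ X := by exact_mod_cast X1
  rw [sum_ind] at hX
  have : ((Icc 1 X).filter fun x => ∃ y, 0 < y ∧ y ≠ x ∧ Part x y).card ≤
      ((range (X + 1)).filter fun x => ∃ y, 0 < y ∧ y ≠ x ∧ Part x y).card :=
    card_le_card (filter_subset_filter _ fun x hx =>
      mem_range.2 (Nat.lt_succ_of_le (mem_Icc.1 hx).2))
  rw [div_lt_iff₀ (by linarith)]
  refine ((Nat.cast_le.2 this).trans hX).trans_lt ?_
  push_cast; nlinarith

end Pool.Agent.P.MP_b2ceab_nt
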