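import Pool.Agent.P.MP_b2ceab_nt.Loc
import Pool.Agent.P.MP_e94e4b_nt.PF.MR1
import Pool.Agent.P.MP_8b7eba_nt.Dens.Mert

/-! Sums of reciprocals of primes in classes. -/

namespace Pool.Agent.P.MP_b2ceab_nt

open Finset Filter
open Pool.Agent.P.MP_8b7eba_nt.Dens (PP PS char_mertens per_abs_sum exp_char_le)
open Pool.Agent.P.MP_e86632_nt (abel_anti)

theorem PP_eq (Z : ℕ) : PP Z = (Ioc 6 Z).filter Nat.Prime := rfl

theorem mem_PP {Z p : ℕ} : p ∈ PP Z ↔ (7 ≤ p ∧ p ≤ Z) ∧ p.Prime := by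
  rw [PP, mem_filter, mem_Icc]

theorem chr (f : ℕ → ℤ) (hm : ∀ a b, f (a * b) = f a * f b) (h8 : ∀ n, f (n + 8) = f n)
    (h1 : ∀ n, |f n| ≤ 1) (h0 : ∑ n ∈ range 8, f n = 0)
    (hA : (1 / 10 + 8 / (16 + 1) : ℚ) ≤ ∑ k ∈ Ioc 0 16, (f k : ℚ) * (1 / (k : ℚ))) :
    ∃ K : ℝ, ∀ Z : ℕ, -K ≤ ∑ p ∈ PP Z, (f p : ℝ) / p := by
  have h2 : ∀ n, |(f n : ℝ)| ≤ 1 := fun n => by exact_mod_cast h1 n
  obtain ⟨K, hK, h⟩ := char_mertens (χ := fun n => (f n : ℝ)) (M := (8 : ℕ)) (c := 1 / 10)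
    (A := 16) (fun a b => by exact_mod_cast hm a b) h2
    (per_abs_sum (by norm_num) (fun n => by rw [h8]) h2 (by exact_mod_cast h0)) (by norm_num) (by
      have h := (Rat.cast_le (K := ℝ)).2 hA
      push_cast at h ⊢
      exact h)
  refine ⟨2 * K * (1 / Real.log (6 + 1 : ℕ)), fun Z => ?_⟩
  have := abel_anti (fun n => if n.Prime then (f n : ℝ) * (Real.log n / n) else 0)
    (fun n => 1 / Real.log n) 6 Z (2 * K) (by positivity) (fun n _ => ?_)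
    (fun n => by have := Real.log_natCast_nonneg n; positivity) fun n hn => ?_
  · refine (abs_le.1 this).1.trans (le_of_eq ?_)
    rw [PP_eq, sum_filter]
    refine sum_congr rfl fun p hp => ?_
    have : (7 : ℝ) ≤ p := by exact_mod_cast (mem_Ioc.1 hp).1
    have := Real.log_pos (show (1 : ℝ) < p by linarith)
    split_ifs
    · field_simp
    · simp
  · rcases le_total 6 n with a | a
    · have e := sum_Ioc_consecutive (fun n : ℕ => if n.Prime then (f n : ℝ) * (Real.log n / n) else 0)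
        (Nat.zero_le 6) a
      have a1 := h 6
      have a2 := h n
      simp only [PS, sum_filter] at a1 a2
      rw [abs_le] at *
      constructor <;> linarith
    · rw [Ioc_eq_empty (by omega)]; simp [hK]
  · have : (6 : ℝ) < n := by exact_mod_cast hn
    exact one_div_le_one_div_of_le (Real.log_pos (by linarith))
      (Real.log_le_log (by linarith) (by push_cast; linarith))

theorem chr8 (χ : MulChar (ZMod 8) ℤ) (h1 : ∀ z, |χ z| ≤ 1) (h0 : ∑ n ∈ range 8, χ n = 0)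
    (hA : (1 / 10 + 8 / (16 + 1) : ℚ) ≤ ∑ k ∈ Ioc 0 16, (χ (k : ℕ) : ℚ) * (1 / (k : ℚ))) :
    ∃ K : ℝ, ∀ Z : ℕ, -K ≤ ∑ p ∈ PP Z, (χ p : ℝ) / p :=
  chr (fun n => χ n) (fun a b => by rw [Nat.cast_mul, map_mul]) (fun n => by
    rw [Nat.cast_add, ZMod.natCast_self, add_zero]) (fun _ => h1 _) h0 hA

theorem chr4 : ∃ K : ℝ, ∀ Z : ℕ, -K ≤ ∑ p ∈ PP Z, (ZMod.χ₄ p : ℝ) / p :=
  chr (fun n => ZMod.χ₄ n) (fun a b => by rw [Nat.cast_mul, map_mul]) (fun n => by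
    rw [Nat.cast_add, show ((8 : ℕ) : ZMod 4) = 0 from rfl, add_zero])
    (fun n => (by decide : ∀ z : ZMod 4, |ZMod.χ₄ z| ≤ 1) n) (by decide) (by decide +kernel)

theorem mer1 : ∃ K : ℝ, ∀ Z : ℕ, 7 ≤ Z →
    Real.log (Real.log Z) - K ≤ ∑ p ∈ PP Z, 1 / (p : ℝ) := by
  obtain ⟨C, -, h⟩ := Pool.Agent.P.MP_e94e4b_nt.PF.MR1_nat
  refine ⟨Real.log (Real.log (6 : ℕ)) + C / Real.log (6 : ℕ), fun Z hZ => ?_⟩
  have := (abs_le.1 (h 6 Z (by norm_num) (by omega))).1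
  rw [PP_eq]; linarith

theorem odd8 {p : ℕ} (h : p % 2 = 1) :
    (1 : ℤ) + ZMod.χ₄ p + ZMod.χ₈ p + ZMod.χ₈' p = if p % 8 = 1 then 4 else 0 := by
  rw [ZMod.χ₄_nat_eq_if_mod_four, ZMod.χ₈_nat_eq_if_mod_eight, ZMod.χ₈'_nat_eq_if_mod_eight]
  split_ifs <;> omega

theorem mer8 : ∃ K : ℝ, ∀ Z : ℕ, 7 ≤ Z →
    5 / 4 * Real.log (Real.log Z) - K ≤ ∑ p ∈ PP Z, (1 + ind (p % 8 = 1)) / (p : ℝ) := by
  obtain ⟨K1, h1⟩ := mer1
  obtain ⟨K2, h2⟩ := chr4
  obtain ⟨K3, h3⟩ := chr8 ZMod.χ₈ (by decide) (by decide) (by decide +kernel)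
  obtain ⟨K4, h4⟩ := chr8 ZMod.χ₈' (by decide) (by decide) (by decide +kernel)
  refine ⟨5 / 4 * K1 + (K2 + K3 + K4) / 4, fun Z hZ => ?_⟩
  have e : ∑ p ∈ PP Z, (1 + ind (p % 8 = 1)) / (p : ℝ) = ∑ p ∈ PP Z, (5 / 4 * (1 / (p : ℝ)) +
      1 / 4 * ((ZMod.χ₄ p : ℝ) / p + (ZMod.χ₈ p : ℝ) / p + (ZMod.χ₈' p : ℝ) / p)) := by
    refine sum_congr rfl fun p hp => ?_
    obtain ⟨⟨a, -⟩, b⟩ := mem_PP.1 hp
    have := congrArg (fun z : ℤ => (z : ℝ)) (odd8 (b.eq_two_or_odd.resolve_left (by omega)))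
    by_cases c : p % 8 = 1
    · rw [ind_of c]; rw [if_pos c] at this; push_cast at this
      linear_combination (-1 / 4 / (p : ℝ)) * this
    · rw [ind_not c]; rw [if_neg c] at this; push_cast at this
      linear_combination (-1 / 4 / (p : ℝ)) * this
  rw [e, sum_add_distrib, ← mul_sum, ← mul_sum, sum_add_distrib, sum_add_distrib]
  linarith [h1 Z hZ, h2 Z, h3 Z, h4 Z]

theorem tend_of {u : ℕ → ℝ} {K : ℝ} (h : ∀ Z, (∑ p ∈ PP Z, 1 / (p : ℝ)) / 2 - K ≤ u Z) :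
    Tendsto u atTop atTop := by
  obtain ⟨K1, h1⟩ := mer1
  have t := Real.tendsto_log_atTop.comp (Real.tendsto_log_atTop.comp tendsto_natCast_atTop_atTop)
  refine tendsto_atTop_mono' _ ?_ (tendsto_atTop_add_const_right _ (-(K1 / 2 + K))
    (t.atTop_div_const two_pos))
  filter_upwards [eventually_ge_atTop 7] with Z hZ
  have := h1 Z hZ
  have := h Z
  simp only [Function.comp]; linarith

theorem mer4 : Tendsto (fun Z => ∑ p ∈ PP Z, ind (p % 4 = 1) / (p : ℝ)) atTop atTop := by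
  obtain ⟨K, h⟩ := chr4
  refine tend_of (K := K / 2) fun Z => ?_
  have e : ∑ p ∈ PP Z, ind (p % 4 = 1) / (p : ℝ) =
      ∑ p ∈ PP Z, (1 / (p : ℝ) + (ZMod.χ₄ p : ℝ) / p) / 2 := by
    refine sum_congr rfl fun p hp => ?_
    obtain ⟨⟨a, -⟩, b⟩ := mem_PP.1 hp
    have o := b.eq_two_or_odd.resolve_left (by omega)
    rw [ZMod.χ₄_nat_eq_if_mod_four, if_neg (by omega)]
    by_cases c : p % 4 = 1
    · rw [ind_of c, if_pos c]; push_cast; ring
    · rw [ind_not c, if_neg c]; push_cast; ring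
  rw [e, ← sum_div, sum_add_distrib]
  linarith [h Z]

theorem merD {D : ℕ} (h4 : D % 4 = 1) (h1 : 1 < D) (hs : Squarefree D) :
    Tendsto (fun Z => ∑ p ∈ PP Z, ind (¬ IsSquare (D : ZMod p)) / (p : ℝ)) atTop atTop := by
  obtain ⟨C, hC, h⟩ := exp_char_le
  refine tend_of (K := (C * (1 + Real.log D) + D) / 2) fun Z => ?_
  have a1 := h Z D 0 (Nat.odd_iff.2 (by omega)) hs zero_le_one (Or.inl h1.ne')
  have a2 := Real.add_one_le_exp
    (∑ p ∈ PP Z, ((ZMod.χ₄ p : ℤ) ^ 0 * jacobiSym p D : ℤ) / (p : ℝ))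
  have a3 : ∑ p ∈ PP Z, ind (p ∣ D) ≤ D := by
    rw [sum_ind]
    have : (PP Z).filter (· ∣ D) ⊆ Icc 1 D := fun p hp => mem_Icc.2
      ⟨(mem_PP.1 (mem_filter.1 hp).1).2.pos, Nat.le_of_dvd (by omega) (mem_filter.1 hp).2⟩
    exact_mod_cast (card_le_card this).trans (by simp)
  have a4 : ∑ p ∈ PP Z, (1 / (p : ℝ) - ((ZMod.χ₄ p : ℤ) ^ 0 * jacobiSym p D : ℤ) / (p : ℝ) -
      ind (p ∣ D)) / 2 ≤ ∑ p ∈ PP Z, ind (¬ IsSquare (D : ZMod p)) / (p : ℝ) := by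
    refine sum_le_sum fun p hp => ?_
    obtain ⟨⟨a, -⟩, b⟩ := mem_PP.1 hp
    have := Fact.mk b
    have p0 : (7 : ℝ) ≤ p := by exact_mod_cast a
    have p1 : 1 / (p : ℝ) ≤ 1 := by rw [div_le_one (by linarith)]; linarith
    have p2 : 0 < 1 / (p : ℝ) := by positivity
    rw [pow_zero, one_mul, ← jacobiSym.quadratic_reciprocity_one_mod_four h4
      (b.odd_of_ne_two (by omega)), ← jacobiSym.legendreSym.to_jacobiSym]
    by_cases c : p ∣ D
    · have z := (ZMod.natCast_eq_zero_iff D p).2 c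
      rw [ind_of c, (legendreSym.eq_zero_iff p D).2 (by exact_mod_cast z), z,
        ind_not (not_not.2 IsSquare.zero)]
      simp only [Int.cast_zero, zero_div]; linarith
    · have z : ((D : ℤ) : ZMod p) ≠ 0 := fun z => c ((ZMod.natCast_eq_zero_iff D p).1
        (by exact_mod_cast z))
      rw [ind_not c]
      by_cases s : IsSquare (D : ZMod p)
      · rw [(legendreSym.eq_one_iff p z).2 (by exact_mod_cast s), ind_not (not_not.2 s)]; simp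
      · rw [(legendreSym.eq_neg_one_iff p).2 (by exact_mod_cast s), ind_of s]
        push_cast; apply le_of_eq; ring
  rw [← sum_div, sum_sub_distrib, sum_sub_distrib] at a4
  linarith

end Pool.Agent.P.MP_b2ceab_nt
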