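import Mathlib

/-! Sums of products of periodic functions. -/

namespace Pool.Agent.P.MP_b2ceab_nt

open Finset Function

/-- mean value over one period -/
noncomputable def av (p : ℕ) (f : ℤ → ℝ) : ℝ := (∑ r ∈ range p, f r) / p

theorem sum_split (φ : ℕ → ℝ) (m n : ℕ) :
    ∑ i ∈ range (m * n), φ i = ∑ j ∈ range n, ∑ r ∈ range m, φ (m * j + r) := by
  induction n with
  | zero => simp
  | succ n ih => rw [mul_add_one, sum_range_add, ih, sum_range_succ]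

theorem per_aff {n : ℕ} (hn : 0 < n) {g : ℤ → ℝ} (hg : Periodic g n) (c : ℤ) {D : ℤ}
    (hD : IsCoprime D n) : ∑ j ∈ range n, g (c + j * D) = ∑ s ∈ range n, g s := by
  have n0 : (0 : ℤ) < n := by exact_mod_cast hn
  set i : ℕ → ℕ := fun j => ((c + j * D) % n).toNat with hi
  have e : ∀ j, (i j : ℤ) = (c + j * D) % n := fun j =>
    Int.toNat_of_nonneg (Int.emod_nonneg _ n0.ne')
  have inj : Set.InjOn i (range n : Finset ℕ) := fun a ha b hb h => by
    have h1 : (c + a * D) % n = (c + b * D) % n := by rw [← e, ← e, h]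
    have h2 : (n : ℤ) ∣ ((b : ℤ) - a) * D := by
      have := Int.ModEq.dvd h1
      rwa [show c + b * D - (c + a * D) = (b - a) * D by ring] at this
    have h3 := hD.symm.dvd_of_dvd_mul_right h2
    have ha' := mem_range.1 (mem_coe.1 ha)
    have hb' := mem_range.1 (mem_coe.1 hb)
    have := Int.eq_zero_of_abs_lt_dvd h3 (abs_lt.2 ⟨by omega, by omega⟩)
    omega
  have im : (range n).image i = range n := by
    refine eq_of_subset_of_card_le (fun s hs => ?_) (by rw [card_image_of_injOn inj])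
    obtain ⟨j, -, rfl⟩ := mem_image.1 hs
    have := Int.emod_lt_of_pos (c + j * D) n0
    rw [← e] at this
    exact mem_range.2 (by exact_mod_cast this)
  conv_rhs => rw [← im, sum_image inj]
  refine sum_congr rfl fun j _ => ?_
  rw [e, Int.emod_def, mul_comm (n : ℤ)]
  exact (hg.sub_int_mul_eq _).symm

theorem per_crt {m n : ℕ} (hn : 0 < n) (h : m.Coprime n) {f g : ℤ → ℝ} (hf : Periodic f m)
    (hg : Periodic g n) :
    ∑ i ∈ range (m * n), f i * g i = (∑ r ∈ range m, f r) * ∑ s ∈ range n, g s := by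
  rw [sum_split (fun i => f i * g i), sum_comm, sum_mul]
  refine sum_congr rfl fun r _ => ?_
  rw [← per_aff hn hg r (Nat.isCoprime_iff_coprime.2 h), mul_sum]
  refine sum_congr rfl fun j _ => ?_
  push_cast
  rw [add_comm, mul_comm (m : ℤ), hf.nat_mul j]

theorem per_prod (E : Finset ℕ) (F : ℕ → ℤ → ℝ) (hF : ∀ p ∈ E, Periodic (F p) p) :
    Periodic (fun x => ∏ p ∈ E, F p x) ((∏ p ∈ E, p : ℕ) : ℤ) := fun x => by
  refine prod_congr rfl fun p hp => ?_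
  obtain ⟨c, hc⟩ := dvd_prod_of_mem (fun p => p) hp
  rw [hc]; push_cast
  rw [mul_comm]; exact (hF p hp).nat_mul c x

theorem av_prod (E : Finset ℕ) (hE : ∀ p ∈ E, p.Prime) (F : ℕ → ℤ → ℝ)
    (hF : ∀ p ∈ E, Periodic (F p) p) :
    av (∏ p ∈ E, p) (fun x => ∏ p ∈ E, F p x) = ∏ p ∈ E, av p (F p) := by
  induction E using Finset.induction_on with
  | empty => simp [av]
  | insert a s ha ih =>
    have h1 := fun p hp => hE p (mem_insert_of_mem hp)
    have h2 := fun p hp => hF p (mem_insert_of_mem hp)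
    simp only [prod_insert ha]
    rw [← ih h1 h2]
    unfold av
    rw [per_crt (prod_pos fun p hp => (h1 p hp).pos) (Nat.Coprime.prod_right fun q hq =>
      (Nat.coprime_primes (hE a (mem_insert_self _ _)) (h1 q hq)).2 fun e => ha (e ▸ hq))
      (hF a (mem_insert_self _ _)) (per_prod s F h2)]
    push_cast; ring

theorem av_mem {p : ℕ} {f : ℤ → ℝ} (h : ∀ x, 0 ≤ f x ∧ f x ≤ 1) : 0 ≤ av p f ∧ av p f ≤ 1 := by
  refine ⟨div_nonneg (sum_nonneg fun r _ => (h r).1) (Nat.cast_nonneg p), ?_⟩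
  refine div_le_one_of_le₀ ?_ (Nat.cast_nonneg p)
  simpa using sum_le_card_nsmul (range p) (fun r : ℕ => f r) 1 fun r _ => (h r).2

theorem per_sum {d : ℕ} (hd : 0 < d) {φ : ℤ → ℝ} (hφ : Periodic φ d)
    (h : ∀ x, 0 ≤ φ x ∧ φ x ≤ 1) (s : ℤ) (N : ℕ) :
    |∑ i ∈ range N, φ (s + i) - N * av d φ| ≤ d := by
  have d0 : (0 : ℝ) < d := by exact_mod_cast hd
  obtain ⟨a0, a1⟩ := av_mem (p := d) h
  have e1 : ∑ i ∈ range (d * (N / d)), φ (s + i) = (N / d : ℕ) * (d * av d φ) := by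
    rw [sum_split (fun i => φ (s + i)), av, mul_div_cancel₀ _ d0.ne',
      ← nsmul_eq_mul, ← card_range (N / d), ← sum_const, card_range]
    refine sum_congr rfl fun j _ => ?_
    rw [← per_aff hd hφ (s + d * j) isCoprime_one_left]
    refine sum_congr rfl fun r _ => ?_
    push_cast; congr 1; ring
  have e2 : (N : ℝ) = d * (N / d : ℕ) + (N % d : ℕ) := by
    exact_mod_cast (Nat.div_add_mod N d).symm
  have e3 : ((N % d : ℕ) : ℝ) ≤ d := by exact_mod_cast (Nat.mod_lt N hd).le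
  have e4 : (0 : ℝ) ≤ (N % d : ℕ) := Nat.cast_nonneg _
  conv_lhs => rw [← Nat.div_add_mod N d, sum_range_add, e1, Nat.div_add_mod, e2]
  have b0 : 0 ≤ ∑ x ∈ range (N % d), φ (s + ((d * (N / d) + x : ℕ) : ℤ)) :=
    sum_nonneg fun r _ => (h _).1
  have b1 : ∑ x ∈ range (N % d), φ (s + ((d * (N / d) + x : ℕ) : ℤ)) ≤ (N % d : ℕ) := by
    simpa using sum_le_card_nsmul (range (N % d))
      (fun x : ℕ => φ (s + ((d * (N / d) + x : ℕ) : ℤ))) 1 fun r _ => (h _).2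
  rw [abs_le]
  constructor <;> nlinarith [mul_nonneg e4 a0, mul_le_mul_of_nonneg_left a1 e4]

theorem prod_mem (E : Finset ℕ) {f : ℕ → ℝ} (h : ∀ p ∈ E, 0 ≤ f p ∧ f p ≤ 1) :
    0 ≤ ∏ p ∈ E, f p ∧ ∏ p ∈ E, f p ≤ 1 :=
  ⟨prod_nonneg fun p hp => (h p hp).1,
    prod_le_one (fun p hp => (h p hp).1) fun p hp => (h p hp).2⟩

/-- one variable -/
theorem L1 (E : Finset ℕ) (hE : ∀ p ∈ E, p.Prime) (F : ℕ → ℤ → ℝ)
    (hF : ∀ p ∈ E, Periodic (F p) p) (h : ∀ p ∈ E, ∀ x, 0 ≤ F p x ∧ F p x ≤ 1) (s : ℤ) (N : ℕ) :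
    |∑ i ∈ range N, ∏ p ∈ E, F p (s + i) - N * ∏ p ∈ E, av p (F p)| ≤ (∏ p ∈ E, p : ℕ) := by
  rw [← av_prod E hE F hF]
  exact per_sum (prod_pos fun p hp => (hE p hp).pos) (per_prod E F hF)
    (fun x => prod_mem E fun p hp => h p hp x) s N

/-- two variables -/
theorem L2 (E : Finset ℕ) (hE : ∀ p ∈ E, p.Prime) (F : ℕ → ℤ → ℤ → ℝ)
    (h1 : ∀ p ∈ E, ∀ b, Periodic (fun a => F p a b) p) (h2 : ∀ p ∈ E, ∀ a, Periodic (F p a) p)
    (h : ∀ p ∈ E, ∀ a b, 0 ≤ F p a b ∧ F p a b ≤ 1) (s : ℤ) (N : ℕ) :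
    |∑ i ∈ range N, ∑ j ∈ range N, ∏ p ∈ E, F p (s + i) (s + j) -
      (N : ℝ) ^ 2 * ∏ p ∈ E, av p fun a => av p (F p a)| ≤ 2 * N * (∏ p ∈ E, p : ℕ) := by
  have a1 := L1 E hE (fun p a => av p (F p a)) (fun p hp x =>
    congrArg (· / (p : ℝ)) (sum_congr rfl fun r _ => h1 p hp r x))
    (fun p hp x => av_mem (h p hp x)) s N
  have a2 : |∑ i ∈ range N, (∑ j ∈ range N, ∏ p ∈ E, F p (s + i) (s + j) -
      N * ∏ p ∈ E, av p (F p (s + i)))| ≤ N * (∏ p ∈ E, p : ℕ) := by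
    refine (abs_sum_le_sum_abs _ _).trans ?_
    simpa using sum_le_card_nsmul (range N) _ _ fun i _ =>
      L1 E hE (fun p => F p (s + i)) (fun p hp => h2 p hp _) (fun p hp => h p hp _) s N
  rw [sum_sub_distrib, ← mul_sum] at a2
  have N0 : (0 : ℝ) ≤ N := Nat.cast_nonneg N
  rw [abs_le] at *
  constructor <;> nlinarith [mul_le_mul_of_nonneg_left a1.1 N0, mul_le_mul_of_nonneg_left a1.2 N0]

theorem prod_le_exp (E : Finset ℕ) {f u : ℕ → ℝ} (h : ∀ p ∈ E, 0 ≤ f p ∧ f p ≤ 1 + u p) :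
    ∏ p ∈ E, f p ≤ Real.exp (∑ p ∈ E, u p) := by
  rw [Real.exp_sum]
  exact prod_le_prod (fun p hp => (h p hp).1) fun p hp =>
    (h p hp).2.trans (by linarith [Real.add_one_le_exp (u p)])

end Pool.Agent.P.MP_b2ceab_nt
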