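import Pool.Agent.P.MP_b2ceab_nt.Den
import Pool.Agent.P.MP_b2ceab_nt.Mer
import Pool.Agent.P.MP_e94e4b_nt.PF.FL
import Pool.Agent.P.MP_e94e4b_nt.PF.TEN

/-! The sieve on one dyadic scale. -/

namespace Pool.Agent.P.MP_b2ceab_nt

open Finset Filter Function
open Pool.Agent.P.MP_e94e4b_nt.PF (pr ev Sup VP Unit01 Adm t_FL t_MR1 t_TEN t_BLK sum_pr_le)
open Pool.Agent.P.MP_8be758_nt.Avg (PL PL_nat prime_of_mem_PL)
open Pool.Agent.P.MP_8b7eba_nt.Dens (PP)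

theorem L3 (e : ℕ) (ν : ℤ → ℤ → ℤ) (E : Finset ℕ) (hE : ∀ p ∈ E, p.Prime) (s : ℤ) (N T : ℕ) :
    |∑ i ∈ range N, ∑ j ∈ range N, ∑ t ∈ range T, ∏ p ∈ E, bz e p (s + i : ℤ) (s + j : ℤ)
        (ν (s + i) (s + j) + t * ((s + i) ^ 2 + (s + j) ^ 2) : ℤ) -
      (N : ℝ) ^ 2 * T * ∏ p ∈ E, gz e p| ≤ ((N : ℝ) ^ 2 + 2 * N * T) * pr E := by
  have a1 : ∀ a b : ℤ, |∑ t ∈ range T, ∏ p ∈ E, bz e p a b (ν a b + t * (a ^ 2 + b ^ 2) : ℤ) -
      T * ∏ p ∈ E, hz e p a b| ≤ pr E := fun a b => by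
    have := L1 E hE (fun p t => bz e p a b (ν a b + t * (a ^ 2 + b ^ 2) : ℤ))
      (fun p _ x => by simp) (fun p _ x => ind_mem _) 0 T
    rw [prod_congr rfl fun p hp => av_bz e (hE p hp) a b (ν a b)] at this
    simpa only [zero_add, pr] using this
  have a2 := L2 E hE (fun p a b => hz e p a b) (fun p _ b x => by simp) (fun p _ a x => by simp)
    (fun p _ a b => hz_mem e p a b) s N
  have a3 := (abs_sum_le_sum_abs _ _).trans (sum_le_card_nsmul (range N) _ _ fun i _ =>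
    (abs_sum_le_sum_abs _ _).trans (sum_le_card_nsmul (range N) _ _ fun j _ => a1 (s + i) (s + j)))
  simp only [sum_sub_distrib, ← mul_sum, card_range, nsmul_eq_mul] at a3
  have T0 : (0 : ℝ) ≤ T := Nat.cast_nonneg T
  rw [abs_le] at *
  unfold gz pr at *
  constructor <;> nlinarith [mul_le_mul_of_nonneg_left a2.1 T0, mul_le_mul_of_nonneg_left a2.2 T0]

theorem sq_tail (a Z : ℕ) (ha : 0 < a) :
    ∑ p ∈ (Ioc a Z).filter Nat.Prime, 1 / ((p : ℕ) : ℝ) ^ 2 ≤ 1 / (a : ℝ) := by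
  refine (sum_le_sum_of_subset_of_nonneg (filter_subset _ _) fun _ _ _ => by positivity).trans ?_
  rcases le_total a Z with h | h
  · simp only [one_div]
    exact (sum_Ioc_inv_sq_le_sub ha.ne' h).trans (sub_le_self _ (by positivity))
  · rw [Ioc_eq_empty (by omega)]; simp

theorem VP_le : ∃ C : ℝ, 0 < C ∧ ∀ e w : ℕ, 7 ≤ w →
    VP (PL w) (gz e) ≤ C * Real.log w ^ (-(5 / 4) : ℝ) := by
  obtain ⟨K, h⟩ := mer8
  refine ⟨Real.exp (K + 1), Real.exp_pos _, fun e w hw => ?_⟩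
  have w7 : (7 : ℝ) ≤ w := by exact_mod_cast hw
  refine (prod_le_exp _ (u := fun p => -gz e p) fun p _ => ⟨sub_nonneg.2
    (av_mem fun _ => av_mem fun _ => hz_mem _ _ _ _).2, (sub_eq_add_neg _ _).le⟩).trans ?_
  rw [Real.rpow_def_of_pos (Real.log_pos (by linarith)), ← Real.exp_add, Real.exp_le_exp,
    sum_neg_distrib]
  have a1 : ∑ p ∈ PP w, gz e p ≤ ∑ p ∈ PL w, gz e p :=
    sum_le_sum_of_subset_of_nonneg (fun p hp => by
      rw [PL_nat, Nat.mem_primesLE]; exact ⟨(mem_PP.1 hp).1.2, (mem_PP.1 hp).2⟩)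
      fun p _ _ => gz_nonneg e p
  have a2 := sum_le_sum fun p (hp : p ∈ PP w) => (gz_bound e (mem_PP.1 hp).2 (mem_PP.1 hp).1.1).1
  have a3 := sq_tail 6 w (by norm_num)
  simp only [sum_sub_distrib, div_eq_mul_one_div (4 : ℝ), ← mul_sum] at a2
  rw [← PP_eq] at a3
  push_cast at a3
  linarith [h w hw]

theorem box : ∃ (s : ℕ) (C : ℝ), 1 ≤ s ∧ 0 < C ∧ ∀ (e : ℕ) (ν : ℤ → ℤ → ℤ) (w : ℕ), 7 ≤ w →
    ∀ (c : ℤ) (N T : ℕ), ∑ i ∈ range N, ∑ j ∈ range N, ∑ t ∈ range T,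
      ind (Cond e ((c + i) ^ 2 + (c + j) ^ 2) (ν (c + i) (c + j) + t * ((c + i) ^ 2 + (c + j) ^ 2))) ≤
      C * ((N : ℝ) ^ 2 * T) * Real.log w ^ (-(5 / 4) : ℝ) +
        ((N : ℝ) ^ 2 + 2 * N * T) * ((w : ℝ) ^ s) ^ 2 := by
  obtain ⟨s, C0, hs, -, h⟩ := t_FL t_MR1 t_TEN t_BLK 1 one_pos
  obtain ⟨C, hC, hV⟩ := VP_le
  refine ⟨s, 2 * C, hs, by positivity, fun e ν w hw c N T => ?_⟩
  have w7 : (7 : ℝ) ≤ w := by exact_mod_cast hw
  obtain ⟨lam, Del, ⟨l1, l2⟩, -, h1, h2⟩ := h w (by linarith)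
  have g01 : Unit01 (gz e) := fun p => av_mem fun _ => av_mem fun _ => hz_mem _ _ _ _
  have adm : Adm (PL w) (gz e) := fun p hp => by
    rcases lt_or_ge p 7 with a | a
    · rw [gz_small e a]; exact ⟨le_rfl, by norm_num, by positivity⟩
    · have b := (gz_bound e (prime_of_mem_PL hp) a).2
      have : (7 : ℝ) ≤ p := by exact_mod_cast a
      exact ⟨gz_nonneg e p, b.trans (by rw [div_le_div_iff₀ (by linarith) two_pos]; linarith), b⟩
  have m1 : ev (PL w) lam (gz e) ≤ 2 * C * Real.log w ^ (-(5 / 4) : ℝ) := by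
    linarith [(h1 _ g01).2.1, (h2 _ adm).1, hV e w hw]
  set B : ℝ := (N : ℝ) ^ 2 + 2 * N * T
  have B0 : 0 ≤ B := by positivity
  have m2 : ∑ E ∈ (PL w).powerset.filter (lam · ≠ 0), (pr E : ℝ) ≤ ((w : ℝ) ^ s) ^ 2 := by
    refine (sum_pr_le (T := Icc 1 (w ^ s)) (F := fun q => (q : ℝ)) (fun E hE p hp =>
      prime_of_mem_PL (mem_powerset.1 (mem_filter.1 hE).1 hp)) (fun E hE => ?_)
      fun _ _ => Nat.cast_nonneg _).trans ?_
    · obtain ⟨a, b⟩ := mem_filter.1 hE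
      exact mem_Icc.2 ⟨prod_pos fun p hp => (prime_of_mem_PL (mem_powerset.1 a hp)).pos,
        by exact_mod_cast l2 E (mem_powerset.1 a) b⟩
    · refine (sum_le_card_nsmul _ _ ((w : ℝ) ^ s) fun q hq => by
        exact_mod_cast (mem_Icc.1 hq).2).trans ?_
      simp [pow_two]
  calc _ ≤ ∑ i ∈ range N, ∑ j ∈ range N, ∑ t ∈ range T, ev (PL w) lam fun p =>
        bz e p (c + i : ℤ) (c + j : ℤ) (ν (c + i) (c + j) + t * ((c + i) ^ 2 + (c + j) ^ 2) : ℤ) := by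
        refine sum_le_sum fun i _ => sum_le_sum fun j _ => sum_le_sum fun t _ => ?_
        refine le_trans (ind_le (prod_nonneg fun p _ => sub_nonneg.2 (ind_mem _).2) fun hc => ?_)
          (h1 _ fun p => ind_mem _).1
        exact (prod_eq_one fun p _ => (congrArg (1 - ·) (bz_cond hc p)).trans (sub_zero 1)).ge
    _ = ∑ E ∈ (PL w).powerset, lam E * ∑ i ∈ range N, ∑ j ∈ range N, ∑ t ∈ range T, ∏ p ∈ E,
        bz e p (c + i : ℤ) (c + j : ℤ) (ν (c + i) (c + j) + t * ((c + i) ^ 2 + (c + j) ^ 2) : ℤ) := by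
        simp only [ev, mul_sum]
        rw [sum_comm (s := (PL w).powerset)]
        refine sum_congr rfl fun i _ => ?_
        rw [sum_comm (s := (PL w).powerset)]
        exact sum_congr rfl fun j _ => sum_comm
    _ ≤ ∑ E ∈ (PL w).powerset, ((N : ℝ) ^ 2 * T * (lam E * ∏ p ∈ E, gz e p) +
          if lam E ≠ 0 then B * pr E else 0) := by
        refine sum_le_sum fun E hE => ?_
        split_ifs with a
        · have b := L3 e ν E (fun p hp => prime_of_mem_PL (mem_powerset.1 hE hp)) c N T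
          have := (le_abs_self _).trans ((abs_mul (lam E) _).trans_le
            (mul_le_mul (l1 E) b (abs_nonneg _) zero_le_one))
          linarith
        · simp [not_not.1 a]
    _ ≤ _ := by
        rw [sum_add_distrib, ← mul_sum, ← sum_filter, ← mul_sum]
        have := mul_le_mul_of_nonneg_left m1 (show 0 ≤ (N : ℝ) ^ 2 * T by positivity)
        have := mul_le_mul_of_nonneg_left m2 B0
        unfold ev at *
        linarith

theorem scale : ∃ (k0 : ℕ) (C : ℝ), 0 < C ∧ ∀ (e : ℕ) (ν : ℤ → ℤ → ℤ) (k M T : ℕ) (c : ℤ), k0 ≤ k →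
    2 ^ k ≤ M → 2 ^ k ≤ T → ∑ i ∈ range (4 * M), ∑ j ∈ range (4 * M), ∑ t ∈ range T,
      ind (Cond e ((c + i) ^ 2 + (c + j) ^ 2) (ν (c + i) (c + j) + t * ((c + i) ^ 2 + (c + j) ^ 2))) ≤
      C * ((M : ℝ) ^ 2 * T) * (k : ℝ) ^ (-(5 / 4) : ℝ) := by
  obtain ⟨s, C, hs, hC, h⟩ := box
  refine ⟨12 * s, (16 * C + 24) * (16 * s : ℝ) ^ (5 / 4 : ℝ), by positivity,
    fun e ν k M T c hk hM hT => ?_⟩
  set m := k / (4 * s) with hm
  have m3 : 3 ≤ m := (Nat.le_div_iff_mul_le (by omega)).2 (by omega)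
  have m4 : 4 * s * m ≤ k := Nat.mul_div_le k _
  have m5 : k ≤ 8 * s * m := by
    have := Nat.lt_mul_div_succ k (show 0 < 4 * s by omega)
    nlinarith
  refine (h e ν (2 ^ m) (le_trans (by norm_num) (Nat.pow_le_pow_right two_pos m3)) c _ _).trans ?_
  have s1 : (1 : ℝ) ≤ s := by exact_mod_cast hs
  have m3' : (3 : ℝ) ≤ m := by exact_mod_cast m3
  have k0 : (0 : ℝ) < k := by exact_mod_cast (show 0 < k by omega)
  set u : ℝ := (16 * s : ℝ) ^ (5 / 4 : ℝ) * (k : ℝ) ^ (-(5 / 4) : ℝ) with hu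
  have a1 : ∀ y : ℝ, m / 2 ≤ y → y ^ (-(5 / 4) : ℝ) ≤ u := fun y hy => by
    have b : (k : ℝ) ≤ 8 * s * m := by exact_mod_cast m5
    rw [hu, Real.rpow_neg k0.le, ← div_eq_mul_inv, ← Real.div_rpow (by positivity) k0.le,
      Real.rpow_neg (by linarith), ← Real.inv_rpow (by linarith)]
    refine Real.rpow_le_rpow (inv_nonneg.2 (by linarith)) ?_ (by norm_num)
    rw [inv_eq_one_div, div_le_div_iff₀ (by linarith) k0]
    nlinarith
  have a2 := a1 (Real.log (2 ^ m : ℕ)) (by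
    push_cast; rw [Real.log_pow]; nlinarith [Real.log_two_gt_d9])
  set Q : ℝ := ((2 ^ m : ℕ) : ℝ) ^ s with hQ
  have q1 : (m : ℝ) ≤ Q := by
    rw [hQ]
    exact_mod_cast Nat.lt_two_pow_self.le.trans (Nat.le_self_pow (by omega) _)
  have q2 : Q ^ 2 * Q ^ 2 ≤ (2 ^ k : ℕ) := by
    rw [hQ]
    have : ((2 ^ m) ^ s) ^ 2 * ((2 ^ m) ^ s) ^ 2 ≤ 2 ^ k := by
      rw [← pow_add, ← pow_mul, ← pow_mul]
      exact Nat.pow_le_pow_right two_pos (by nlinarith)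
    exact_mod_cast this
  have q3 : 1 ≤ Q ^ 2 * u := by
    refine le_trans ?_ (mul_le_mul_of_nonneg_left (a1 Q (by linarith)) (by positivity))
    rw [← Real.rpow_natCast, ← Real.rpow_add (by linarith)]
    exact Real.one_le_rpow (by linarith) (by norm_num)
  have u0 : 0 ≤ u := by positivity
  have q4 : ∀ L : ℕ, 2 ^ k ≤ L → Q ^ 2 ≤ L * u := fun L hL => by
    have : ((2 ^ k : ℕ) : ℝ) ≤ L := by exact_mod_cast hL
    nlinarith [mul_le_mul_of_nonneg_left q3 (sq_nonneg Q), mul_le_mul_of_nonneg_right (q2.trans this) u0]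
  have b1 := mul_le_mul_of_nonneg_left (q4 T hT) (show 0 ≤ (M : ℝ) ^ 2 by positivity)
  have b2 := mul_le_mul_of_nonneg_left (q4 M hM) (show 0 ≤ (M : ℝ) * T by positivity)
  have b3 := mul_le_mul_of_nonneg_left a2 (show 0 ≤ C * ((M : ℝ) ^ 2 * T) by positivity)
  rw [show (16 * C + 24) * (16 * s : ℝ) ^ (5 / 4 : ℝ) * ((M : ℝ) ^ 2 * T) *
    (k : ℝ) ^ (-(5 / 4) : ℝ) = (16 * C + 24) * ((M : ℝ) ^ 2 * T) * u by rw [hu]; ring]
  push_cast at b3 ⊢
  nlinarith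

theorem idx {a b : ℤ} {M : ℕ} (h : a ^ 2 + b ^ 2 < (2 * M) ^ 2) :
    ∃ i ∈ range (4 * M), -(2 * M : ℤ) + i = a := by
  have := abs_lt.1 (abs_lt_of_sq_lt_sq (show a ^ 2 < (2 * M) ^ 2 by nlinarith) (by positivity))
  exact ⟨(a + 2 * M).toNat, mem_range.2 (by omega), by omega⟩

theorem mid {δ : ℝ} (hδ : 0 < δ) : ∃ Z : ℕ, ∀ e, Sm (fun x => ∃ D E : ℕ, D * E = x ^ 2 + 1 ∧
    Z ≤ D ∧ Z * D ≤ x ∧ Cond e D x) δ := by
  obtain ⟨k0, C, hC, h⟩ := scale
  obtain ⟨ν, hν⟩ := exists_nu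
  obtain ⟨s, hs⟩ := summable_iff_vanishing_norm.1
    (Real.summable_nat_rpow.2 (show (-(5 / 4) : ℝ) < -1 by norm_num)) (δ / (4 * C)) (by positivity)
  obtain ⟨j0, j1, j2, j3⟩ : ∃ j0, 1 ≤ j0 ∧ k0 ≤ j0 ∧ ∀ t : Finset ℕ, (∀ k ∈ t, j0 ≤ k) →
      ∑ k ∈ t, (k : ℝ) ^ (-(5 / 4) : ℝ) ≤ δ / (4 * C) :=
    ⟨k0 + s.sup id + 1, by omega, by omega, fun t ht => (le_abs_self _).trans (hs t
      (disjoint_left.2 fun k a b => by have := ht k a; have := le_sup (f := id) b; simp at this; omega)).le⟩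
  refine ⟨4 ^ j0, fun e => Sm.of_le (C := 0) fun X => ?_⟩
  rcases Nat.eq_zero_or_pos X with rfl | X0
  · simp
  set J := Nat.log 4 X
  refine (cnt_le (range X) ((Icc j0 (J - j0)).sigma fun j => range (4 * 2 ^ j) ×ˢ range (4 * 2 ^ j) ×ˢ
    range (X / 4 ^ j + 1)) (Q := fun u => Cond e ((-(2 * (2 ^ u.1 : ℕ)) + u.2.1) ^ 2 +
      (-(2 * (2 ^ u.1 : ℕ)) + u.2.2.1) ^ 2) (ν (-(2 * (2 ^ u.1 : ℕ)) + u.2.1)
      (-(2 * (2 ^ u.1 : ℕ)) + u.2.2.1) + u.2.2.2 * ((-(2 * (2 ^ u.1 : ℕ)) + u.2.1) ^ 2 +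
      (-(2 * (2 ^ u.1 : ℕ)) + u.2.2.1) ^ 2))) (fun u => (ν (-(2 * (2 ^ u.1 : ℕ)) + u.2.1)
      (-(2 * (2 ^ u.1 : ℕ)) + u.2.2.1) + u.2.2.2 * ((-(2 * (2 ^ u.1 : ℕ)) + u.2.1) ^ 2 +
      (-(2 * (2 ^ u.1 : ℕ)) + u.2.2.1) ^ 2)).toNat) ?_).trans ?_
  · rintro x hx ⟨D, E, h1, h2, h3, h4⟩
    obtain ⟨a, b, e1, e2⟩ := hν D E x h1
    have D0 : D ≠ 0 := by rintro rfl; simp at h1
    have d1 := Nat.pow_log_le_self 4 D0
    have d2 : (D : ℤ) < (2 * (2 ^ Nat.log 4 D : ℕ)) ^ 2 := by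
      have := Nat.lt_pow_succ_log_self (b := 4) (by norm_num) D
      generalize Nat.log 4 D = n at this ⊢
      rw [show 4 ^ n.succ = (2 * 2 ^ n) ^ 2 by
        rw [← pow_succ', ← pow_mul, mul_comm, pow_mul]; norm_num] at this
      exact_mod_cast this
    rw [e1] at d2
    obtain ⟨i, i1, i2⟩ := idx d2
    obtain ⟨j, k1, k2⟩ := idx (add_comm (a ^ 2) _ ▸ d2)
    have x1 := (mem_range.1 hx).le
    have l1 : j0 ≤ Nat.log 4 D := Nat.le_log_of_pow_le (by norm_num) h2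
    have l2 : j0 + Nat.log 4 D ≤ J := Nat.le_log_of_pow_le (by norm_num) (by
      rw [pow_add]; exact ((Nat.mul_le_mul_left _ d1).trans h3).trans x1)
    refine ⟨⟨Nat.log 4 D, i, j, x / D⟩, mem_sigma.2 ⟨mem_Icc.2 ⟨l1, by simp only; omega⟩,
      mem_product.2 ⟨i1, mem_product.2 ⟨k1, mem_range.2 (Nat.lt_succ_of_le
        (Nat.div_le_div x1 d1 (by positivity)))⟩⟩⟩, ?_⟩
    simp only [i2, k2, ← e2]
    rw [← e1]
    exact ⟨h4, rfl⟩
  rw [sum_sigma]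
  simp only [sum_product]
  have X1 : (0 : ℝ) < X := by exact_mod_cast X0
  calc _ ≤ ∑ j ∈ Icc j0 (J - j0), 2 * C * X *
        ((j : ℝ) ^ (-(5 / 4) : ℝ) + ((J - j : ℕ) : ℝ) ^ (-(5 / 4) : ℝ)) := by
        refine sum_le_sum fun j hj => ?_
        obtain ⟨a1, a2⟩ := mem_Icc.1 hj
        have a3 : 4 ^ (J - j) * 4 ^ j ≤ X := by
          rw [← pow_add, Nat.sub_add_cancel (by omega)]; exact Nat.pow_log_le_self 4 X0.ne'
        refine (h e ν (min j (J - j)) (2 ^ j) _ _ (by omega)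
          (Nat.pow_le_pow_right two_pos (min_le_left _ _)) ?_).trans ?_
        · exact ((Nat.pow_le_pow_right two_pos (min_le_right _ _)).trans
            (Nat.pow_le_pow_left (by norm_num) _)).trans
            (((Nat.le_div_iff_mul_le (by positivity)).2 a3).trans (Nat.le_succ _))
        · have a4 : (2 ^ j) ^ 2 * (X / 4 ^ j + 1) ≤ 2 * X := by
            rw [← pow_mul, mul_comm j, pow_mul]
            have := Nat.mul_div_le X (4 ^ j)
            have := (Nat.le_mul_of_pos_left (4 ^ j) (show 0 < 4 ^ (J - j) by positivity)).trans a3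
            norm_num [mul_add]; omega
          rw [show 2 * C * X = C * (2 * X : ℕ) by push_cast; ring]
          refine mul_le_mul (mul_le_mul_of_nonneg_left (by exact_mod_cast a4) hC.le) ?_
            (by positivity) (by positivity)
          rcases min_choice j (J - j) with a | a <;> rw [a]
          · exact le_add_of_nonneg_right (by positivity)
          · exact le_add_of_nonneg_left (by positivity)
    _ ≤ _ := by
        rw [← mul_sum, sum_add_distrib, ← sum_image (g := fun j => J - j)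
          (f := fun k : ℕ => (k : ℝ) ^ (-(5 / 4) : ℝ)) fun a ha b hb e => by
            have := mem_Icc.1 ha; have := mem_Icc.1 hb; simp only at e; omega]
        have a1 := j3 (Icc j0 (J - j0)) fun k hk => (mem_Icc.1 hk).1
        have a2 := j3 ((Icc j0 (J - j0)).image fun j => J - j) fun k hk => by
          obtain ⟨j, hj, rfl⟩ := mem_image.1 hk
          have := mem_Icc.1 hj; omega
        refine (mul_le_mul_of_nonneg_left (add_le_add a1 a2) (by positivity)).trans (le_of_eq ?_)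
        field_simp; ring

end Pool.Agent.P.MP_b2ceab_nt
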