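import Pool.Agent.P.MP_b2ceab_nt.Den
import Pool.Agent.P.MP_b2ceab_nt.Mer
import Pool.Agent.P.MP_7aad9f_nt.SubFinal

/-! Bounded divisors. -/

namespace Pool.Agent.P.MP_b2ceab_nt

open Finset Filter Function
open Pool.Agent.P.MP_8b7eba_nt.Dens (PP)
open Pool.Agent.P.MP_7aad9f_nt.Sub (rad main_final omega_)

theorem exp_small {u : ℕ → ℝ} (h : Tendsto u atTop atTop) {c δ : ℝ} (hc : 0 < c) (K : ℝ)
    (hδ : 0 < δ) : ∀ᶠ Z in atTop, Real.exp (K - c * u Z) ≤ δ := by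
  filter_upwards [h.eventually_ge_atTop ((K - Real.log δ) / c)] with Z hZ
  rw [div_le_iff₀ hc] at hZ
  rw [← Real.le_log_iff_exp_le hδ]; linarith

theorem smallD {D : ℕ} (h4 : D % 4 = 1) (h1 : 1 < D) (hs : Squarefree D) :
    Sm (fun x => Cond 0 D x) 0 := Sm.zero fun δ hδ => by
  obtain ⟨Z, hZ⟩ := (exp_small (merD h4 h1 hs) one_pos 0 hδ).exists
  have hE : ∀ p ∈ PP Z, p.Prime := fun p hp => (mem_PP.1 hp).2
  have m01 : ∀ P, 0 ≤ 1 - ind P ∧ 1 - ind P ≤ 1 := fun P =>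
    ⟨sub_nonneg.2 (ind_mem P).2, sub_le_self _ (ind_mem P).1⟩
  refine (Sm_prod (PP Z) hE (fun p x => 1 - ind (¬ IsSquare (D : ZMod p) ∧ (x : ZMod p) = 1))
    (fun p _ x => by simp) (fun p _ x => m01 _) zero_le_one (P := fun x => Cond 0 D x)
    fun x hx => ?_).mono (fun _ h => h) ?_
  · rw [one_mul]
    refine (prod_eq_one fun p hp => ?_).ge
    rw [ind_not, sub_zero]
    rintro ⟨a, b⟩
    have := hx p (hE p hp) (by have := (mem_PP.1 hp).1.1; omega)
      ((ZMod.intCast_zmod_eq_zero_iff_dvd _ p).1 (by push_cast at b ⊢; rw [b]; simp))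
    exact a (by simpa using this)
  · rw [one_mul]
    refine (prod_le_exp _ (u := fun p => -(ind (¬ IsSquare (D : ZMod p)) / p)) fun p hp =>
      ⟨(av_mem fun x => m01 _).1, ?_⟩).trans (by rw [sum_neg_distrib]; simpa using hZ)
    have := Fact.mk (hE p hp)
    have p0 : (0 : ℝ) < p := by exact_mod_cast (hE p hp).pos
    rw [av_zmod p fun z => 1 - ind (¬ IsSquare (D : ZMod p) ∧ z = 1), sum_sub_distrib,
      sum_eq_single (1 : ZMod p) (fun z _ hz => ind_not fun h => hz h.2) (by simp)]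
    simp only [and_true, sum_const, card_univ, ZMod.card, nsmul_eq_mul, mul_one]
    apply le_of_eq; field_simp; ring

theorem pell_le {B y t : ℕ} (hB : 1 < B) (h : y ^ 2 + 1 = B * t ^ 2) : 0 < t ∧ t ≤ y := by
  have t0 : 0 < t := Nat.pos_of_ne_zero (by rintro rfl; simp at h)
  refine ⟨t0, not_lt.1 fun c => ?_⟩
  nlinarith [Nat.mul_le_mul_right (t ^ 2) hB, Nat.pow_le_pow_left c 2]

theorem pell_gap {B y t z u : ℕ} (hB : 1 < B) (h : y ^ 2 + 1 = B * t ^ 2)
    (h' : z ^ 2 + 1 = B * u ^ 2) (hl : t < u) : 2 * t ≤ u := by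
  obtain ⟨a1, a2⟩ := pell_le hB h
  obtain ⟨b1, b2⟩ := pell_le hB h'
  zify at *
  have e : (z * t - y * u) * (z * t + y * u) = (u : ℤ) ^ 2 - t ^ 2 := by
    linear_combination (t : ℤ) ^ 2 * h' - (u : ℤ) ^ 2 * h
  have c1 : 2 * (t * u) ≤ (z * t + y * u : ℤ) := by nlinarith
  have c2 : 0 < (t * u : ℤ) := by positivity
  have c3 : 1 ≤ (z * t - y * u : ℤ) := by
    by_contra c
    nlinarith
  nlinarith

theorem abc_y : ∃ K : ℝ, 0 < K ∧ ∀ (y : ℕ) (X : ℝ), 2 ≤ y → 1 ≤ X → (rad (y ^ 2 - 1) : ℝ) ≤ X ^ 2 →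
    Real.log y ≤ K * X ^ (1 / 8 : ℝ) := by
  obtain ⟨K, h⟩ := main_final (1 / 16) (by norm_num)
  refine ⟨1 + 2 * |K|, by positivity, fun y X hy hX hr => ?_⟩
  have n0 : y ^ 2 - 1 ≠ 0 := by have : 2 ^ 2 ≤ y ^ 2 := Nat.pow_le_pow_left hy 2; omega
  have W1 : 1 ≤ X ^ (1 / 8 : ℝ) := Real.one_le_rpow hX (by norm_num)
  have k : ∀ a b c : ℕ, 0 < a → 0 < b → a.Coprime b → a + b = c → a * b * c ∣ 2 * (y ^ 2 - 1) →
      y ≤ 2 * c → Real.log y ≤ (1 + 2 * |K|) * X ^ (1 / 8 : ℝ) := fun a b c ha hb hc e hd hl => by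
    have a1 : rad (a * b * c) ≤ 2 * rad (y ^ 2 - 1) := by
      have : (a * b * c).primeFactors ⊆ insert 2 (y ^ 2 - 1).primeFactors := by
        have := Nat.primeFactors_mono hd (by omega)
        rwa [Nat.primeFactors_mul two_ne_zero n0, Nat.prime_two.primeFactors] at this
      refine (prod_le_prod_of_subset_of_one_le' this fun p hp _ => ?_).trans ?_
      · rcases mem_insert.1 hp with rfl | a
        · norm_num
        · exact (Nat.prime_of_mem_primeFactors a).pos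
      · by_cases m : 2 ∈ (y ^ 2 - 1).primeFactors
        · rw [insert_eq_of_mem m, rad]; omega
        · rw [prod_insert m, rad]
    have a2 : (rad (a * b * c) : ℝ) ^ (1 / 16 : ℝ) ≤ 2 * X ^ (1 / 8 : ℝ) := by
      have : (rad (a * b * c) : ℝ) ≤ 2 * rad (y ^ 2 - 1) := by exact_mod_cast a1
      refine (Real.rpow_le_rpow (by positivity) (show _ ≤ 2 * X ^ 2 by linarith) (by norm_num)).trans ?_
      rw [Real.mul_rpow (by norm_num) (by positivity), ← Real.rpow_natCast, ← Real.rpow_mul (by linarith)]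
      norm_num
      exact mul_le_mul_of_nonneg_right (Real.rpow_le_self_of_one_le (by norm_num) (by norm_num))
        (by positivity)
    have a3 := (h a b c ha hb hc e).trans (mul_le_mul (le_abs_self K) a2 (by positivity) (abs_nonneg K))
    have a4 : Real.log y ≤ Real.log (2 * c) :=
      Real.log_le_log (by exact_mod_cast (show 0 < y by omega)) (by exact_mod_cast hl)
    rw [Real.log_mul two_ne_zero (by exact_mod_cast (show c ≠ 0 by omega))] at a4
    nlinarith [Real.log_two_lt_d9]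
  rcases Nat.even_or_odd' y with ⟨u, rfl | rfl⟩
  · obtain ⟨v, rfl⟩ : ∃ v, u = v + 1 := ⟨u - 1, by omega⟩
    exact k (2 * v + 1) 2 (2 * v + 3) (by omega) two_pos (by simp) rfl
      ⟨1, by rw [show (2 * (v + 1)) ^ 2 = (2 * v + 1) * (2 * v + 3) + 1 by ring, Nat.add_sub_cancel]; ring⟩
      (by omega)
  · exact k u 1 (u + 1) (by omega) one_pos (by simp) rfl
      ⟨8, by rw [show (2 * u + 1) ^ 2 = 4 * (u * (u + 1)) + 1 by ring, Nat.add_sub_cancel]; ring⟩
      (by omega)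

theorem smallB {B : ℕ} (hB : 1 < B) :
    Sm (fun x => 2 ≤ x ∧ ∃ y t : ℕ, y ^ 2 + 1 = B * t ^ 2 ∧ Part x y) 0 := by
  classical
  obtain ⟨K, hK, h1⟩ := abc_y
  obtain ⟨C, hC, h2⟩ := omega_ 2 (1 / 16) (by norm_num)
  obtain ⟨Y, hY⟩ : ∃ Y : ℕ → ℕ, ∀ y t, y ^ 2 + 1 = B * t ^ 2 → Y (Nat.log 2 t) = y := by
    refine ⟨fun k => if h : ∃ z : ℕ × ℕ, z.1 ^ 2 + 1 = B * z.2 ^ 2 ∧ Nat.log 2 z.2 = k then
      h.choose.1 else 0, fun y t e => ?_⟩
    have hex : ∃ z : ℕ × ℕ, z.1 ^ 2 + 1 = B * z.2 ^ 2 ∧ Nat.log 2 z.2 = Nat.log 2 t := ⟨(y, t), e, rfl⟩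
    simp only [dif_pos hex]
    obtain ⟨a, b⟩ := hex.choose_spec
    generalize hex.choose = z at a b
    have g : ∀ {y t z u}, y ^ 2 + 1 = B * t ^ 2 → z ^ 2 + 1 = B * u ^ 2 → t < u →
        Nat.log 2 t < Nat.log 2 u := fun {y t z u} e1 e2 l => by
      have := Nat.log_mono_right (b := 2) (pell_gap hB e1 e2 l)
      rw [mul_comm, Nat.log_mul_base (by norm_num) (pell_le hB e1).1.ne'] at this
      omega
    have : z.2 = t := le_antisymm (not_lt.1 fun l => (g e a l).ne' b) (not_lt.1 fun l => (g a e l).ne b)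
    rw [this, ← e] at a
    exact Nat.pow_left_injective two_ne_zero (Nat.add_right_cancel a)
  intro η hη
  filter_upwards [((tendsto_rpow_atTop (show (0 : ℝ) < 1 / 8 by norm_num)).comp
    tendsto_natCast_atTop_atTop).eventually_ge_atTop ((2 * K + 1) * C * 2 / η),
    eventually_ge_atTop 1] with X hX X1
  have X2 : (1 : ℝ) ≤ X := by exact_mod_cast X1
  set W : ℝ := (X : ℝ) ^ (1 / 8 : ℝ) with hW
  have W1 : 1 ≤ W := Real.one_le_rpow X2 (by norm_num)
  have W8 : W ^ 8 = X := by rw [hW, ← Real.rpow_natCast, ← Real.rpow_mul (by linarith)]; norm_num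
  refine (cnt_le (range X) (((range (⌊2 * K * W⌋₊ + 1)).filter fun k => rad (Y k ^ 2 - 1) ≤ X ^ 2).sigma
    fun k => (Y k ^ 2 - 1).primeFactors.powerset ×ˢ range (X.sqrt + 1)) (Q := fun _ => True)
    (fun u => u.2.2 ^ 2 * ∏ p ∈ u.2.1, p - 1) ?_).trans ?_
  · rintro x hx ⟨x2, y, t, e, hP⟩
    have x4 : 2 ^ 2 ≤ x ^ 2 := Nat.pow_le_pow_left x2 2
    obtain ⟨t0, ty⟩ := pell_le hB e
    have y1 : 1 ≤ y ^ 2 := Nat.one_le_pow _ _ (by omega)
    have s : ∀ p : ℕ, p.Prime → (p ∣ x ^ 2 - 1 ↔ p ∣ y ^ 2 - 1) := fun p hp => by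
      have := hP.l0 hp
      zify [y1, show 1 ≤ x ^ 2 by omega]; exact this
    have y2 : 2 ≤ y := by
      by_contra c
      obtain rfl : y = 1 := by omega
      obtain ⟨p, a, b⟩ := Nat.exists_infinite_primes (x ^ 2)
      have := Nat.le_of_dvd (by omega) ((s p b).2 (by simp))
      omega
    have y4 : 2 ^ 2 ≤ y ^ 2 := Nat.pow_le_pow_left y2 2
    have x1 := mem_range.1 hx
    have pf : (x ^ 2 - 1).primeFactors = (y ^ 2 - 1).primeFactors := by
      ext p; simp only [Nat.mem_primeFactors]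
      exact ⟨fun a => ⟨a.1, (s p a.1).1 a.2.1, by omega⟩, fun a => ⟨a.1, (s p a.1).2 a.2.1, by omega⟩⟩
    have r : rad (y ^ 2 - 1) ≤ X ^ 2 := by
      rw [rad, ← pf]
      have := Nat.le_of_dvd (by omega) (Nat.prod_primeFactors_dvd (x ^ 2 - 1))
      have := Nat.pow_le_pow_left x1.le 2
      omega
    obtain ⟨q, m, e1, e2⟩ := Nat.sq_mul_squarefree (x + 1)
    refine ⟨⟨Nat.log 2 t, q.primeFactors, m⟩, mem_sigma.2 ⟨mem_filter.2 ⟨mem_range.2
      (Nat.lt_succ_of_le (Nat.le_floor ?_)), by simpa only [hY y t e] using r⟩, mem_product.2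
      ⟨mem_powerset.2 ?_, mem_range.2 (Nat.lt_succ_of_le (Nat.le_sqrt'.2 ?_))⟩⟩, trivial, ?_⟩
    · have a1 := h1 y X y2 X2 (by exact_mod_cast r)
      have a2 : Real.log ((2 : ℝ) ^ Nat.log 2 t) ≤ Real.log y := Real.log_le_log (by positivity)
        (by exact_mod_cast (Nat.pow_log_le_self 2 t0.ne').trans ty)
      rw [Real.log_pow] at a2
      nlinarith [Real.log_two_gt_d9, Nat.cast_nonneg (α := ℝ) (Nat.log 2 t)]
    · simp only [hY y t e, ← pf]
      exact Nat.primeFactors_mono ((Dvd.intro_left _ e1).trans ⟨x - 1, by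
        rw [← Nat.sq_sub_sq]⟩) (by omega)
    · have := Nat.le_mul_of_pos_right (m ^ 2) (Nat.pos_of_ne_zero e2.ne_zero)
      simp only; omega
    · simp only [Nat.prod_primeFactors_of_squarefree e2, e1]; rfl
  rw [sum_sigma]
  simp only [ind_of trivial, sum_const, card_product, card_powerset, card_range, nsmul_eq_mul, mul_one]
  have b1 : ((X.sqrt + 1 : ℕ) : ℝ) ≤ 2 * W ^ 4 := by
    have : (X.sqrt : ℝ) ^ 2 ≤ (W ^ 4) ^ 2 := by
      rw [← pow_mul, W8]; exact_mod_cast Nat.sqrt_le' X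
    have := le_of_sq_le_sq this (by positivity)
    push_cast; linarith [one_le_pow₀ W1 (n := 4)]
  refine (sum_le_card_nsmul _ _ (C * W * (2 * W ^ 4)) fun k hk => ?_).trans ?_
  · rw [Nat.cast_mul, Nat.cast_pow]
    refine mul_le_mul ((h2 _).trans (mul_le_mul_of_nonneg_left ?_ hC.le)) b1 (by positivity)
      (by positivity)
    refine (Real.rpow_le_rpow (by positivity) (show _ ≤ (X : ℝ) ^ 2 by
      exact_mod_cast (mem_filter.1 hk).2) (by norm_num)).trans (le_of_eq ?_)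
    rw [hW, ← Real.rpow_natCast, ← Real.rpow_mul (by linarith)]; norm_num
  · have b2 : (((range (⌊2 * K * W⌋₊ + 1)).filter fun k => rad (Y k ^ 2 - 1) ≤ X ^ 2).card : ℝ) ≤
        (2 * K + 1) * W := by
      have := card_filter_le (range (⌊2 * K * W⌋₊ + 1)) fun k => rad (Y k ^ 2 - 1) ≤ X ^ 2
      rw [card_range] at this
      have a : (⌊2 * K * W⌋₊ : ℝ) ≤ 2 * K * W := Nat.floor_le (by positivity)
      refine le_trans (Nat.cast_le.2 this) ?_
      push_cast; linarith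
    rw [nsmul_eq_mul, ← W8, zero_add]
    refine (mul_le_mul_of_nonneg_right b2 (by positivity)).trans ?_
    rw [Function.comp, ← hW, div_le_iff₀ hη] at hX
    calc _ = (2 * K + 1) * C * 2 * W ^ 6 := by ring
      _ ≤ W * η * W ^ 7 := mul_le_mul hX (pow_le_pow_right₀ W1 (by norm_num)) (by positivity)
        (by positivity)
      _ = _ := by ring

end Pool.Agent.P.MP_b2ceab_nt
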