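import Mathlib

/-! Two different numbers `x ^ 2 + 1`, `y ^ 2 + 1` with the same prime divisors do not have the
same squarefree part. -/

namespace Pool.Agent.P.MP_b2ceab_nt

/-- coordinates of `(G + √E) ^ k` -/
def st (G E : ℤ) : ℕ → ℤ × ℤ
  | 0 => (1, 0)
  | k + 1 => (G * (st G E k).1 + E * (st G E k).2, (st G E k).1 + G * (st G E k).2)

theorem st_cong (G E : ℤ) (k : ℕ) :
    E ^ 2 ∣ G ^ 3 * (st G E k).1 - (G ^ (k + 3) + (k.choose 2 : ℕ) * G ^ (k + 1) * E) ∧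
    E ^ 2 ∣ G ^ 3 * (st G E k).2 - (k * G ^ (k + 2) + (k.choose 3 : ℕ) * G ^ k * E) := by
  induction k with
  | zero => simp [st]
  | succ k ih =>
    obtain ⟨⟨c, hc⟩, d, hd⟩ := ih
    have e2 : (k + 1).choose 2 = k + k.choose 2 := by
      rw [Nat.choose_succ_succ' k 1, Nat.choose_one_right]
    have e3 : (k + 1).choose 3 = k.choose 2 + k.choose 3 := Nat.choose_succ_succ' k 2
    rw [e2, e3]
    simp only [st]
    push_cast
    refine ⟨⟨G * c + E * d + (k.choose 3 : ℕ) * G ^ k, ?_⟩, c + G * d, ?_⟩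
    · linear_combination G * hc + E * hd
    · linear_combination hc + G * hd

theorem st_pos {G E : ℤ} (hG : 1 ≤ G) (hE : 2 ≤ E) (k : ℕ) :
    1 ≤ (st G E k).1 ∧ (k : ℤ) ≤ (st G E k).2 := by
  induction k with
  | zero => simp [st]
  | succ k ih =>
    obtain ⟨h1, h2⟩ := ih
    have k0 : (0 : ℤ) ≤ k := Int.natCast_nonneg k
    simp only [st]
    push_cast
    constructor <;> nlinarith

theorem st_gt {G E : ℤ} (hG : 1 ≤ G) (hE : 2 ≤ E) (k : ℕ) :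
    ((k + 3 : ℕ) : ℤ) < (st G E (k + 3)).2 := by
  obtain ⟨h1, h2⟩ := st_pos hG hE (k + 1)
  obtain ⟨-, h3⟩ := st_pos hG hE (k + 2)
  have k0 : (0 : ℤ) ≤ k := Int.natCast_nonneg k
  have e1 : (st G E (k + 3)).2 = (st G E (k + 2)).1 + G * (st G E (k + 2)).2 := rfl
  have e2 : (st G E (k + 2)).1 = G * (st G E (k + 1)).1 + E * (st G E (k + 1)).2 := rfl
  push_cast at *
  nlinarith

theorem st_neg (G E : ℤ) (k : ℕ) :
    (st (-G) E k).1 = (-1) ^ k * (st G E k).1 ∧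
      (st (-G) E k).2 = -((-1) ^ k * (st G E k).2) := by
  induction k with
  | zero => simp [st]
  | succ k ih =>
    simp only [st, ih.1, ih.2]
    constructor <;> ring

theorem st_prime {G : ℤ} (hG : 1 ≤ G) {l : ℕ} (hl : l.Prime) (h2 : l ≠ 2)
    (h : ∀ q : ℕ, q.Prime → (q : ℤ) ∣ (st G (G ^ 2 + 1) l).2 → (q : ℤ) ∣ G ^ 2 + 1) : False := by
  have hE : 2 ≤ G ^ 2 + 1 := by nlinarith
  obtain ⟨k, rfl⟩ : ∃ k, l = k + 3 := ⟨l - 3, by have := hl.two_le; omega⟩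
  set l := k + 3 with hk
  set E := G ^ 2 + 1 with hEE
  have hB := st_gt hG hE k
  obtain ⟨c, hc⟩ := (st_cong G E l).2
  set B := (st G E l).2
  have cop : ∀ q : ℕ, q.Prime → (q : ℤ) ∣ E → ∀ n, ¬ (q : ℤ) ∣ G ^ n := fun q hq h1 n h3 => by
    have hq' := Nat.prime_iff_prime_int.1 hq
    have h4 := hq'.dvd_of_dvd_pow h3
    have : (q : ℤ) ∣ 1 := (dvd_add_right (dvd_pow h4 two_ne_zero)).1 h1
    exact hq'.not_dvd_one this
  have key : ∀ q : ℕ, q.Prime → (q : ℤ) ∣ B → q = l := fun q hq h1 => by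
    have h3 := h q hq h1
    have h4 : (q : ℤ) ∣ l * G ^ (l + 2) := by
      have : (l : ℤ) * G ^ (l + 2) = G ^ 3 * B - E * (E * c + (l.choose 3 : ℕ) * G ^ l) := by
        linear_combination -hc
      rw [this]
      exact dvd_sub (dvd_mul_of_dvd_right h1 _) (dvd_mul_of_dvd_left h3 _)
    rcases (Nat.prime_iff_prime_int.1 hq).dvd_or_dvd h4 with h5 | h5
    · exact (Nat.prime_dvd_prime_iff_eq hq hl).1 (by exact_mod_cast h5)
    · exact absurd h5 (cop q hq h3 _)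
  have B0 : 0 < B := lt_trans (by positivity) hB
  obtain ⟨b, hb⟩ := Int.eq_ofNat_of_zero_le B0.le
  rw [hb] at hB key B0
  have lb : l < b := by exact_mod_cast hB
  have key' : ∀ {q : ℕ}, q.Prime → q ∣ b → q = l := fun {q} hq h1 =>
    key q hq (by exact_mod_cast h1)
  have e := Nat.eq_prime_pow_of_unique_prime_dvd (by omega) key'
  have two : 2 ≤ b.primeFactorsList.length := by
    by_contra hlt
    have : l ^ b.primeFactorsList.length ≤ l ^ 1 := Nat.pow_le_pow_right hl.pos (by omega)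
    rw [pow_one, ← e] at this
    omega
  have d2 : (l : ℤ) ^ 2 ∣ B := by
    rw [hb, e]; exact_mod_cast pow_dvd_pow l two
  have dE : (l : ℤ) ∣ E := h l hl ((dvd_pow_self _ two_ne_zero).trans d2)
  have l3 : l ≠ 3 := fun h3 => by
    rw [h3] at dE
    have : G % 3 = 0 ∨ G % 3 = 1 ∨ G % 3 = 2 := by omega
    have h5 : (G ^ 2 + 1) % 3 = 0 := Int.emod_eq_zero_of_dvd dE
    rcases this with a | a | a <;> simp [pow_two, Int.add_emod, Int.mul_emod, a] at h5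
  have dc : (l : ℤ) ∣ (l.choose 3 : ℕ) := by
    exact_mod_cast hl.dvd_choose_self (by norm_num) (by omega)
  obtain ⟨e1, he1⟩ := dE
  obtain ⟨c1, hc1⟩ := dc
  obtain ⟨b1, hb1⟩ := d2
  have l0 : (l : ℤ) ≠ 0 := by exact_mod_cast hl.ne_zero
  refine cop l hl ⟨e1, he1⟩ (l + 2) ⟨G ^ 3 * b1 - e1 ^ 2 * c - c1 * G ^ l * e1, ?_⟩
  refine mul_left_cancel₀ l0 ?_
  rw [hc1, hb1, he1] at hc
  linear_combination -hc

theorem st_pow {W G H : ℤ} (k : ℕ) :
    (⟨G, H⟩ : ℤ√W) ^ k = ⟨(st G (W * H ^ 2) k).1, H * (st G (W * H ^ 2) k).2⟩ := by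
  induction k with
  | zero => ext <;> simp [st]
  | succ k ih =>
    rw [pow_succ, ih]
    ext <;> simp [st] <;> ring

theorem im_dvd_pow {W : ℤ} (z : ℤ√W) (k : ℕ) : z.im ∣ (z ^ k).im := by
  induction k with
  | zero => simp
  | succ k ih =>
    rw [pow_succ, Zsqrtd.im_mul]
    exact dvd_add (dvd_mul_left _ _) (dvd_mul_of_dvd_left ih _)

/-- units that are congruent to an integer -/
def sg (W q : ℤ) : Subgroup (ℤ√W)ˣ where
  carrier := {u | q ∣ (u : ℤ√W).im}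
  one_mem' := by simp
  mul_mem' := fun {a b} ha hb => by
    simp only [Set.mem_ofPred_eq, Units.val_mul, Zsqrtd.im_mul] at *
    exact dvd_add (dvd_mul_of_dvd_right hb _) (dvd_mul_of_dvd_left ha _)
  inv_mem' := fun {a} ha => by
    simp only [Set.mem_ofPred_eq] at *
    have h := a.mul_inv
    have h1 := congrArg Zsqrtd.re h
    have h2 := congrArg Zsqrtd.im h
    simp only [Zsqrtd.re_mul, Zsqrtd.im_mul, Zsqrtd.re_one, Zsqrtd.im_one] at h1 h2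
    obtain ⟨c, hc⟩ := ha
    rw [hc] at h1 h2
    refine ⟨c * (W * ((a⁻¹ : (ℤ√W)ˣ) : ℤ√W).im ^ 2 - ((a⁻¹ : (ℤ√W)ˣ) : ℤ√W).re ^ 2), ?_⟩
    linear_combination (-((a⁻¹ : (ℤ√W)ˣ) : ℤ√W).im) * h1 + ((a⁻¹ : (ℤ√W)ˣ) : ℤ√W).re * h2

theorem storm_aux {W : ℤ} (hW : 2 ≤ W) [NoZeroDivisors (ℤ√W)] {u1 u2 a : (ℤ√W)ˣ} {m n : ℕ}
    (h1 : u1 ^ 2 = a ^ m) (h2 : u2 ^ 2 = a ^ n) (hn : ¬ n ∣ m)
    (hN : (u2 : ℤ√W).norm = -1)
    (h : ∀ q : ℕ, q.Prime → (q : ℤ) ∣ (u2 : ℤ√W).im → (q : ℤ) ∣ W * (u1 : ℤ√W).im ^ 2) :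
    False := by
  set γ := u1 ^ Nat.gcdA m n * u2 ^ Nat.gcdB m n with hγ
  have g2 : γ ^ 2 = a ^ Nat.gcd m n := by
    rw [hγ, mul_pow, ← zpow_natCast, ← zpow_natCast, ← zpow_mul, ← zpow_mul, mul_comm _ ((2 : ℕ) : ℤ),
      mul_comm _ ((2 : ℕ) : ℤ), zpow_mul, zpow_mul, zpow_natCast, zpow_natCast, h1, h2,
      ← zpow_natCast, ← zpow_natCast, ← zpow_mul, ← zpow_mul, ← zpow_add, ← Nat.gcd_eq_gcd_ab,
      zpow_natCast]
  obtain ⟨M, hM⟩ := Nat.gcd_dvd_right m n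
  have M1 : M ≠ 1 := fun e => hn (by
    rw [e, mul_one] at hM; rw [hM]; exact Nat.gcd_dvd_left m n)
  have g3 : ((γ : ℤ√W) ^ M) ^ 2 = (u2 : ℤ√W) ^ 2 := by
    have : (γ ^ M) ^ 2 = u2 ^ 2 := by
      rw [← pow_mul, mul_comm, pow_mul, g2, ← pow_mul, ← hM, h2]
    exact_mod_cast congrArg Units.val this
  have g4 := sq_eq_sq_iff_eq_or_eq_neg.1 g3
  have g5 : (γ : ℤ√W).norm ^ M = -1 := by
    have : ((γ : ℤ√W) ^ M).norm = (γ : ℤ√W).norm ^ M := map_pow Zsqrtd.normMonoidHom _ _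
    rw [← this]
    rcases g4 with e | e <;> rw [e]
    · exact hN
    · rw [Zsqrtd.norm_neg]; exact hN
  have g6 : (γ : ℤ√W).norm = -1 ∧ ¬ 2 ∣ M := by
    rcases Int.isUnit_iff.1 (Zsqrtd.isUnit_iff_norm_isUnit _ |>.1 γ.isUnit) with e | e
    · rw [e, one_pow] at g5; omega
    · refine ⟨e, fun h2 => ?_⟩
      rw [e, (even_iff_two_dvd.2 h2).neg_one_pow] at g5; omega
  obtain ⟨l, hl, k, hk⟩ := Nat.exists_prime_and_dvd M1
  have l2 : l ≠ 2 := fun e => g6.2 (e ▸ ⟨k, hk⟩)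
  have mem : ∀ q : ℤ, q ∣ (u1 : ℤ√W).im → q ∣ (u2 : ℤ√W).im → q ∣ (γ : ℤ√W).im :=
    fun q a1 a2 => (sg W q).mul_mem ((sg W q).zpow_mem a1 _) ((sg W q).zpow_mem a2 _)
  generalize (γ : ℤ√W) = z at g4 g6 mem
  obtain ⟨G, H⟩ := z
  have hE : W * H ^ 2 = G ^ 2 + 1 := by
    have := g6.1
    simp only [Zsqrtd.norm_def] at this
    linear_combination -this
  have main : ∀ q : ℕ, q.Prime → (q : ℤ) ∣ (st G (G ^ 2 + 1) l).2 → (q : ℤ) ∣ G ^ 2 + 1 := by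
    intro q hq hd
    have b1 : (q : ℤ) ∣ (u2 : ℤ√W).im := by
      have b2 := im_dvd_pow ((⟨G, H⟩ : ℤ√W) ^ l) k
      rw [← pow_mul, ← hk, st_pow l, hE] at b2
      have b3 := (dvd_mul_of_dvd_right hd H).trans b2
      rcases g4 with e | e <;> rw [e] at b3
      · exact b3
      · simpa using b3
    have hq' := Nat.prime_iff_prime_int.1 hq
    rw [← hE]
    rcases hq'.dvd_or_dvd (h q hq b1) with b4 | b4
    · exact dvd_mul_of_dvd_left b4 _
    · exact dvd_mul_of_dvd_right (dvd_pow (mem q (hq'.dvd_of_dvd_pow b4) b1) two_ne_zero) _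
  rcases lt_trichotomy G 0 with G0 | G0 | G0
  · refine st_prime (G := -G) (by omega) hl l2 fun q hq hd => ?_
    rw [neg_sq] at hd ⊢
    rw [(st_neg G _ l).2, dvd_neg] at hd
    exact main q hq ((isUnit_neg_one.pow l).dvd_mul_left.1 hd)
  · rw [G0] at hE
    have : W ∣ 1 := ⟨H ^ 2, by linarith⟩
    have := Int.le_of_dvd one_pos this
    omega
  · exact st_prime G0 hl l2 main

/-- the statement of Stormer type -/
theorem storm {W x y s t : ℤ} (hx : 0 < x) (hy : 0 < y) (h1 : x ^ 2 + 1 = W * s ^ 2)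
    (h2 : y ^ 2 + 1 = W * t ^ 2)
    (h : ∀ q : ℕ, q.Prime → ((q : ℤ) ∣ x ^ 2 + 1 ↔ (q : ℤ) ∣ y ^ 2 + 1)) : x = y := by
  wlog hs : 0 < s generalizing s
  · refine this (s := -s) (by rw [neg_sq]; exact h1) ?_
    have : s ≠ 0 := by rintro rfl; nlinarith
    omega
  wlog ht : 0 < t generalizing t
  · refine this (t := -t) (by rw [neg_sq]; exact h2) ?_
    have : t ≠ 0 := by rintro rfl; nlinarith
    omega
  have W0 : 0 < W := by
    by_contra hc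
    nlinarith [mul_nonneg (neg_nonneg.2 (not_lt.1 hc)) (sq_nonneg s)]
  have nsq : ¬ IsSquare W := by
    rintro ⟨r, rfl⟩
    have a1 : x < |r * s| := abs_lt_of_sq_lt_sq' (by rw [sq_abs]; nlinarith) (abs_nonneg _) |>.2
    have a2 : (x + 1) ^ 2 ≤ |r * s| ^ 2 := pow_le_pow_left₀ (by omega) a1 2
    rw [sq_abs] at a2
    nlinarith
  have hW : 2 ≤ W := by
    have : W ≠ 1 := fun e => nsq (e ▸ IsSquare.one)
    omega
  have : NoZeroDivisors (ℤ√W) := ⟨fun {a b} e => by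
    have e1 := congrArg Zsqrtd.norm e
    rw [Zsqrtd.norm_mul, Zsqrtd.norm_zero, mul_eq_zero] at e1
    have k := Zsqrtd.norm_eq_zero (d := W) fun n hn => nsq ⟨n, hn⟩
    exact e1.imp (k a).1 (k b).1⟩
  obtain ⟨a, ha⟩ := Pell.IsFundamental.exists_of_not_isSquare W0 nsq
  have un : ∀ x s : ℤ, 0 < x → 0 < s → x ^ 2 + 1 = W * s ^ 2 → ∃ (u : (ℤ√W)ˣ) (m : ℕ),
      (u : ℤ√W) = ⟨x, s⟩ ∧ (u : ℤ√W).norm = -1 ∧ u ^ 2 = Unitary.toUnits a ^ m := by
    intro x s hx hs e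
    have n1 : (⟨x, s⟩ : ℤ√W).norm = -1 := by
      simp only [Zsqrtd.norm_def]; linear_combination e
    obtain ⟨u, hu⟩ := (Zsqrtd.isUnit_iff_norm_isUnit _).2 (n1 ▸ isUnit_neg_one)
    obtain ⟨m, hm⟩ := ha.eq_pow_of_nonneg
      (a := Pell.Solution₁.mk (x ^ 2 + W * s ^ 2) (2 * x * s) (by
        linear_combination (x ^ 2 - 1 - W * s ^ 2) * e))
      (by rw [Pell.Solution₁.x_mk]; positivity) (by rw [Pell.Solution₁.y_mk]; positivity)
    refine ⟨u, m, hu, hu ▸ n1, Units.ext ?_⟩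
    have e2 : ((Unitary.toUnits a ^ m : (ℤ√W)ˣ) : ℤ√W) = ((a ^ m : Pell.Solution₁ W) : ℤ√W) := by
      rw [Units.val_pow_eq_pow_val]; rfl
    rw [e2, ← hm, Pell.Solution₁.coe_mk, Units.val_pow_eq_pow_val, hu]
    ext <;> simp [pow_two] <;> ring
  obtain ⟨u1, m, a1, a2, a3⟩ := un x s hx hs h1
  obtain ⟨u2, n, b1, b2, b3⟩ := un y t hy ht h2
  by_cases c1 : n ∣ m
  · by_cases c2 : m ∣ n
    · rw [Nat.dvd_antisymm c2 c1, ← b3] at a3
      have e := congrArg (fun u : (ℤ√W)ˣ => (u : ℤ√W).re) a3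
      simp only [pow_two, Units.val_mul, a1, b1, Zsqrtd.re_mul] at e
      have : x ^ 2 = y ^ 2 := by nlinarith
      exact (pow_left_inj₀ hx.le hy.le two_ne_zero).1 this
    · refine (storm_aux hW b3 a3 c2 a2 fun q hq hd => ?_).elim
      rw [a1] at hd
      rw [b1, ← h2, ← h q hq, h1]
      exact dvd_mul_of_dvd_right (dvd_pow hd two_ne_zero) _
  · refine (storm_aux hW a3 b3 c1 b2 fun q hq hd => ?_).elim
    rw [b1] at hd
    rw [a1, ← h1, h q hq, h2]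
    exact dvd_mul_of_dvd_right (dvd_pow hd two_ne_zero) _

end Pool.Agent.P.MP_b2ceab_nt
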