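import Pool.Agent.P.MP_b2ceab_nt.Scale
import Pool.Agent.P.MP_b2ceab_nt.Small

/-! Divisors of `x ^ 2 + 1` close to `x`. -/

namespace Pool.Agent.P.MP_b2ceab_nt

open Finset Filter Function
open Pool.Agent.P.MP_8b7eba_nt.Dens (PP)

theorem sq_dvd {p : ℕ} (hp : p.Prime) (h2 : p ≠ 2) :
    Sm (fun x => (p : ℤ) ^ 2 ∣ (x : ℤ) ^ 2 + 1) (2 * (1 / (p : ℝ) ^ 2)) := by
  refine (Sm_per (d := p ^ 2) (pow_pos hp.pos 2) (φ := fun x => ind ((p : ℤ) ^ 2 ∣ x ^ 2 + 1))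
    (fun x => ?_) (fun x => ind_mem _) zero_le_one fun x hx => by rw [ind_of hx, mul_one]).mono
    (fun _ h => h) ?_
  · push_cast
    rw [show (x + p ^ 2) ^ 2 + 1 = x ^ 2 + 1 + p ^ 2 * (2 * x + p ^ 2) by ring,
      dvd_add_left (dvd_mul_right _ _)]
  rw [one_mul, av, sum_ind, mul_one_div]
  push_cast
  refine div_le_div_of_nonneg_right ?_ (by positivity)
  rcases ((range (p ^ 2)).filter fun r : ℕ => (p : ℤ) ^ 2 ∣ (r : ℤ) ^ 2 + 1).eq_empty_or_nonempty with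
    e | ⟨s, hs⟩
  · rw [e]; simp
  have pp := Nat.prime_iff_prime_int.1 hp
  obtain ⟨s1, s2⟩ := mem_filter.1 hs
  have s3 : ¬ (p : ℤ) ∣ s := fun a => pp.not_dvd_one
    ((dvd_add_right (dvd_pow a two_ne_zero)).1 ((dvd_pow_self _ two_ne_zero).trans s2))
  have s0 : s ≠ 0 := by rintro rfl; simp at s3
  have : ((range (p ^ 2)).filter fun r : ℕ => (p : ℤ) ^ 2 ∣ (r : ℤ) ^ 2 + 1) ⊆ {s, p ^ 2 - s} := by
    intro r hr
    obtain ⟨r1, r2⟩ := mem_filter.1 hr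
    rw [mem_range] at r1 s1
    have d : (p : ℤ) ^ 2 ∣ (r - s) * (r + s) := by
      rw [show ((r : ℤ) - s) * (r + s) = r ^ 2 + 1 - (s ^ 2 + 1) by ring]; exact dvd_sub r2 s2
    have q : ((p ^ 2 : ℕ) : ℤ) = (p : ℤ) ^ 2 := by simp
    rw [mem_insert, mem_singleton]
    by_cases a : (p : ℤ) ∣ r + s
    · have b : ¬ (p : ℤ) ∣ r - s := fun b => by
        have := dvd_sub a b
        rw [show (r : ℤ) + s - (r - s) = 2 * s by ring] at this
        exact h2 ((Nat.prime_dvd_prime_iff_eq hp Nat.prime_two).1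
          (by exact_mod_cast (pp.dvd_or_dvd this).resolve_right s3))
      have := Int.eq_zero_of_abs_lt_dvd (dvd_sub (pp.pow_dvd_of_dvd_mul_left 2 b d) dvd_rfl)
        (abs_lt.2 ⟨by omega, by omega⟩)
      omega
    · have := Int.eq_zero_of_abs_lt_dvd (pp.pow_dvd_of_dvd_mul_right 2 a d)
        (abs_lt.2 ⟨by omega, by omega⟩)
      omega
  exact_mod_cast (card_le_card this).trans card_le_two

theorem ind_cast (p : ℕ) (n : ℤ) : ind ((p : ℤ) ∣ n) = ind ((n : ZMod p) = 0) := by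
  rw [ZMod.intCast_zmod_eq_zero_iff_dvd]

theorem upper (S : Finset ℕ) (hS : ∀ p ∈ S, p.Prime) :
    Sm (fun x => 4 / 3 * ∑ p ∈ S, 2 / (p : ℝ) ≤ ∑ p ∈ S, ind ((p : ℤ) ∣ (x : ℤ) ^ 2 + 1))
      (Real.exp (0 - 1 / 42 * ∑ p ∈ S, 2 / (p : ℝ))) := by
  have m : ∀ P, 0 ≤ (7 + ind P) / 8 ∧ (7 + ind P) / 8 ≤ 1 := fun P => by
    constructor <;> linarith [(ind_mem P).1, (ind_mem P).2]
  refine (Sm_prod S hS (fun p x => (7 + ind ((x : ZMod p) ^ 2 = -1)) / 8) (fun p _ x => by simp)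
    (fun p _ x => m _) (c := Real.exp (-(1 / 6 * ∑ p ∈ S, 2 / (p : ℝ))) * ∏ _p ∈ S, (8 / 7 : ℝ))
    (by positivity) fun x hx => ?_).mono (fun _ h => h) ?_
  · rw [mul_assoc, ← prod_mul_distrib]
    have : Real.exp (∑ p ∈ S, ind ((p : ℤ) ∣ (x : ℤ) ^ 2 + 1) / 8) ≤
        ∏ p ∈ S, 8 / 7 * ((7 + ind (((x : ℤ) : ZMod p) ^ 2 = -1)) / 8) := by
      rw [Real.exp_sum]
      refine prod_le_prod (fun _ _ => (Real.exp_pos _).le) fun p _ => ?_
      rw [ind_cast, Int.cast_add, Int.cast_pow, Int.cast_one, add_eq_zero_iff_eq_neg]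
      by_cases a : ((x : ℤ) : ZMod p) ^ 2 = -1
      · rw [ind_of a]
        exact (Real.exp_bound_div_one_sub_of_interval (by norm_num) (by norm_num)).trans (by norm_num)
      · rw [ind_not a]; norm_num
    refine le_trans ?_ (mul_le_mul_of_nonneg_left this (Real.exp_pos _).le)
    rw [← Real.exp_add, ← sum_div]
    exact Real.one_le_exp (by linarith)
  · rw [mul_assoc, ← prod_mul_distrib]
    refine (mul_le_mul_of_nonneg_left (prod_le_exp S (u := fun p => 2 / (p : ℝ) / 7) fun p hp =>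
      ⟨mul_nonneg (by norm_num) (av_mem fun x => m _).1, ?_⟩) (Real.exp_pos _).le).trans ?_
    · have := Fact.mk (hS p hp)
      have p0 : (0 : ℝ) < p := by exact_mod_cast (hS p hp).pos
      rw [av_zmod p fun z => (7 + ind (z ^ 2 = -1)) / 8, ← sum_div, sum_add_distrib]
      simp only [sum_const, card_univ, ZMod.card, nsmul_eq_mul]
      have := sq_roots (-1 : ZMod p)
      field_simp
      linarith
    · rw [← Real.exp_add, ← sum_div]
      exact le_of_eq (by congr 1; ring)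

theorem lower (S : Finset ℕ) (hS : ∀ p ∈ S, p.Prime ∧ p % 4 = 1) (h1 : ∑ p ∈ S, 1 / (p : ℝ) ^ 2 ≤ 1)
    (T : ℕ) {γ : ℝ} (hγ : Real.exp (1 - 1 / 24 * ∑ p ∈ S, 2 / (p : ℝ)) ≤ γ) :
    Sm (fun x => ∃ V E : ℕ, V * E = x ^ 2 + 1 ∧ x < T * V ∧ x < T * E ∧
      ∑ p ∈ S, ind ((p : ℤ) ∣ V) ≤ 2 / 3 * ∑ p ∈ S, 2 / (p : ℝ)) (64 * T ^ 2 * γ) := by
  obtain ⟨ν, hν⟩ := exists_nu
  have g0 := (Real.exp_pos _).trans_le hγ
  set L := ∑ p ∈ S, 2 / (p : ℝ) with hL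
  set β := Real.exp (L / 3) * (∏ p ∈ S, p : ℕ)
  refine Sm.of_le (C := T * (64 * γ + β ^ 2 / γ)) fun X => ?_
  set M := (T * X).sqrt + 1
  refine (cnt_le (range X) (range (4 * M) ×ˢ range (4 * M) ×ˢ range T)
    (Q := fun u => ∑ p ∈ S, ind ((p : ℤ) ∣ (-(2 * M) + u.1) ^ 2 + (-(2 * M) + u.2.1) ^ 2) ≤ 2 / 3 * L)
    (fun u => (ν (-(2 * M) + u.1) (-(2 * M) + u.2.1) +
      u.2.2 * ((-(2 * M) + u.1) ^ 2 + (-(2 * M) + u.2.1) ^ 2)).toNat) ?_).trans ?_
  · rintro x hx ⟨V, E, e, a1, a2, a3⟩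
    obtain ⟨a, b, e1, e2⟩ := hν V E x e
    have x1 := mem_range.1 hx
    have V0 : 0 < V := Nat.pos_of_ne_zero (by rintro rfl; simp at e)
    have v1 : V ≤ T * X := by
      refine le_trans (Nat.le_of_mul_le_mul_right ?_ x.succ_pos) (Nat.mul_le_mul_left T x1)
      calc V * x.succ ≤ V * (T * E) := Nat.mul_le_mul_left V a2
        _ = T * (x ^ 2 + 1) := by rw [← e]; ring
        _ ≤ T * (x.succ * x.succ) := Nat.mul_le_mul_left T (by rw [Nat.succ_eq_add_one]; nlinarith)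
        _ = _ := by ring
    have d2 : (V : ℤ) < (2 * M) ^ 2 := by
      have := v1.trans_lt (Nat.lt_succ_sqrt' (T * X))
      exact_mod_cast this.trans_le (Nat.pow_le_pow_left (by omega) 2)
    rw [e1] at d2 a3
    obtain ⟨i, i1, i2⟩ := idx d2
    obtain ⟨j, k1, k2⟩ := idx (add_comm (a ^ 2) _ ▸ d2)
    refine ⟨(i, j, x / V), mem_product.2 ⟨i1, mem_product.2 ⟨k1,
      mem_range.2 ((Nat.div_lt_iff_lt_mul V0).2 a1)⟩⟩, ?_⟩
    simp only [i2, k2, ← e2]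
    exact ⟨a3, rfl⟩
  simp only [sum_product, sum_const, card_range, nsmul_eq_mul, ← mul_sum]
  have m : ∀ P, 0 ≤ 1 - 3 / 8 * ind P ∧ 1 - 3 / 8 * ind P ≤ 1 := fun P => by
    constructor <;> linarith [(ind_mem P).1, (ind_mem P).2]
  have b1 := (abs_le.1 (L2 S (fun p hp => (hS p hp).1)
    (fun p a b => 1 - 3 / 8 * ind ((a : ZMod p) ^ 2 + (b : ZMod p) ^ 2 = 0)) (fun p _ b x => by simp)
    (fun p _ a x => by simp) (fun p _ a b => m _) (-(2 * M)) (4 * M))).2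
  have b2 : ∀ a b : ℤ, ind (∑ p ∈ S, ind ((p : ℤ) ∣ a ^ 2 + b ^ 2) ≤ 2 / 3 * L) ≤ Real.exp (L / 3) *
      ∏ p ∈ S, (1 - 3 / 8 * ind ((a : ZMod p) ^ 2 + (b : ZMod p) ^ 2 = 0)) := fun a b => by
    refine ind_le (mul_nonneg (Real.exp_pos _).le (prod_nonneg fun p _ => (m _).1)) fun h => ?_
    have : Real.exp (∑ p ∈ S, -(ind ((p : ℤ) ∣ a ^ 2 + b ^ 2) / 2)) ≤
        ∏ p ∈ S, (1 - 3 / 8 * ind ((a : ZMod p) ^ 2 + (b : ZMod p) ^ 2 = 0)) := by
      rw [Real.exp_sum]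
      refine prod_le_prod (fun _ _ => (Real.exp_pos _).le) fun p _ => ?_
      rw [ind_cast, Int.cast_add, Int.cast_pow, Int.cast_pow]
      by_cases c : (a : ZMod p) ^ 2 + (b : ZMod p) ^ 2 = 0
      · rw [ind_of c, Real.exp_neg, inv_le_comm₀ (Real.exp_pos _) (by norm_num)]
        exact le_trans (by norm_num) (Real.quadratic_le_exp_of_nonneg (by norm_num))
      · rw [ind_not c]; norm_num
    refine le_trans ?_ (mul_le_mul_of_nonneg_left this (Real.exp_pos _).le)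
    rw [← Real.exp_add, sum_neg_distrib, ← sum_div]
    exact Real.one_le_exp (by linarith)
  have b3 : Real.exp (L / 3) * ∏ p ∈ S, (av p fun a => av p fun b =>
      1 - 3 / 8 * ind ((a : ZMod p) ^ 2 + (b : ZMod p) ^ 2 = 0)) ≤ γ := by
    refine le_trans ?_ hγ
    refine (mul_le_mul_of_nonneg_left (prod_le_exp S
      (u := fun p => 3 / 4 * (1 / (p : ℝ) ^ 2) - 3 / 8 * (2 / p)) fun p hp =>
      ⟨(av_mem fun a => av_mem fun b => m _).1, ?_⟩) (Real.exp_pos _).le).trans ?_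
    · have := Fact.mk (hS p hp).1
      have p0 : (0 : ℝ) < p := by exact_mod_cast (hS p hp).1.pos
      have a1 : ∀ a : ZMod p, (av p fun b => 1 - 3 / 8 * ind (a ^ 2 + (b : ZMod p) ^ 2 = 0)) =
          (∑ b : ZMod p, (1 - 3 / 8 * ind (a ^ 2 + b ^ 2 = 0))) / p := fun a =>
        av_zmod p fun b => 1 - 3 / 8 * ind (a ^ 2 + b ^ 2 = 0)
      rw [av_zmod p fun a => av p fun b => 1 - 3 / 8 * ind (a ^ 2 + (b : ZMod p) ^ 2 = 0)]
      simp only [a1, ← sum_div, sum_sub_distrib, ← mul_sum, sum_const, card_univ, ZMod.card,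
        nsmul_eq_mul]
      have := zero_ge (hS p hp).2
      field_simp
      linarith
    · rw [← Real.exp_add, sum_sub_distrib, ← mul_sum, ← mul_sum, Real.exp_le_exp]
      linarith
  have b4 := sum_le_sum fun i (_ : i ∈ range (4 * M)) => sum_le_sum fun j (_ : j ∈ range (4 * M)) =>
    b2 (-(2 * M) + i) (-(2 * M) + j)
  simp only [← mul_sum] at b4
  have b5 : ((4 * M : ℕ) : ℝ) ^ 2 ≤ 32 * T * X + 32 := by
    have : (4 * M) ^ 2 ≤ 32 * T * X + 32 := by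
      have := Nat.sqrt_le' (T * X)
      simp only [M]
      zify at this ⊢
      nlinarith [sq_nonneg (((T * X).sqrt : ℤ) - 1)]
    exact_mod_cast this
  generalize ((4 * M : ℕ) : ℝ) = N at b1 b5
  have b6 : 2 * N * β ≤ γ * N ^ 2 + β ^ 2 / γ := by
    rw [← sub_nonneg, show γ * N ^ 2 + β ^ 2 / γ - 2 * N * β = (γ * N - β) ^ 2 / γ by field_simp; ring]
    positivity
  have b7 := mul_le_mul_of_nonneg_left b1 (Real.exp_pos (L / 3)).le
  have b8 := mul_le_mul_of_nonneg_left b3 (sq_nonneg N)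
  have b9 := mul_le_mul_of_nonneg_left b5 g0.le
  refine (mul_le_mul_of_nonneg_left (b4.trans (show _ ≤ 2 * γ * (32 * T * X + 32) + β ^ 2 / γ by
    simp only [β] at b6 ⊢; linarith)) (Nat.cast_nonneg T)).trans (le_of_eq (by ring))

theorem win (T : ℕ) : Sm (fun x => ∃ D E : ℕ, D * E = x ^ 2 + 1 ∧ D ≤ E ∧ x < T * D) 0 :=
  Sm.zero fun δ hδ => by
  obtain ⟨w, hw⟩ := exists_nat_ge (6 / δ)
  have w0 : (0 : ℝ) < (w + 1 : ℕ) := by positivity
  set S : ℕ → Finset ℕ := fun Z => (PP Z).filter fun p => w + 1 < p ∧ p % 4 = 1 with hS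
  have t : Tendsto (fun Z => ∑ p ∈ S Z, 2 / (p : ℝ)) atTop atTop := by
    refine tendsto_atTop_mono (fun Z => ?_) (tendsto_atTop_add_const_right _ (-((w + 2 : ℕ) : ℝ)) mer4)
    have a1 : ∑ p ∈ PP Z, ind (p ≤ w + 1) ≤ (w + 2 : ℕ) := by
      rw [sum_ind]
      exact_mod_cast (card_le_card fun p hp => mem_range.2
        (Nat.lt_succ_of_le (mem_filter.1 hp).2)).trans (card_range _).le
    have a2 : ∑ p ∈ PP Z, ind (p % 4 = 1) / (p : ℝ) ≤
        ∑ p ∈ S Z, 2 / (p : ℝ) + ∑ p ∈ PP Z, ind (p ≤ w + 1) := by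
      rw [hS, sum_filter, ← sum_add_distrib]
      refine sum_le_sum fun p hp => ?_
      have : (7 : ℝ) ≤ p := by exact_mod_cast (mem_PP.1 hp).1.1
      obtain ⟨i0, i1⟩ := ind_mem (p % 4 = 1)
      split_ifs with c
      · exact le_add_of_le_of_nonneg (div_le_div_of_nonneg_right (by linarith) (by linarith))
          (ind_mem _).1
      · by_cases d : p ≤ w + 1
        · rw [ind_of d, zero_add, div_le_one (by linarith)]; linarith
        · rw [ind_not fun e => c ⟨by omega, e⟩, ind_not d]; simp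
    linarith
  obtain ⟨Z, z1, z2⟩ := ((exp_small t (c := 1 / 42) (by norm_num) 0 (δ := δ / 3) (by positivity)).and
    (exp_small t (c := 1 / 24) (by norm_num) 1 (δ := δ / 3 / (64 * T ^ 2 + 1)) (by positivity))).exists
  have s1 : ∀ p ∈ S Z, p.Prime ∧ p % 4 = 1 := fun p hp =>
    ⟨(mem_PP.1 (mem_filter.1 hp).1).2, (mem_filter.1 hp).2.2⟩
  have s2 : ∑ p ∈ S Z, 1 / (p : ℝ) ^ 2 ≤ 1 / ((w + 1 : ℕ) : ℝ) :=
    (sum_le_sum_of_subset_of_nonneg (fun p hp => mem_filter.2 ⟨mem_Ioc.2 ⟨(mem_filter.1 hp).2.1,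
      (mem_PP.1 (mem_filter.1 hp).1).1.2⟩, (s1 p hp).1⟩) fun _ _ _ => by positivity).trans
      (sq_tail (w + 1) Z w.succ_pos)
  refine (((Sm.ex (S Z) fun p hp => sq_dvd (s1 p hp).1 (by have := (s1 p hp).2; omega)).or
    (upper (S Z) fun p hp => (s1 p hp).1)).or (lower (S Z) s1 (s2.trans ((div_le_one w0).2
    (by exact_mod_cast w.succ_pos))) T z2)).mono ?_ ?_
  · rintro x ⟨D, E, e, h1, h2⟩
    have h3 := h2.trans_le (Nat.mul_le_mul_left T h1)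
    by_contra c
    simp only [not_or, not_exists, not_and, not_le] at c
    obtain ⟨⟨c1, c2⟩, c3⟩ := c
    have e1 : (x : ℤ) ^ 2 + 1 = D * E := by exact_mod_cast e.symm
    have : ∑ p ∈ S Z, (ind ((p : ℤ) ∣ D) + ind ((p : ℤ) ∣ E)) ≤
        ∑ p ∈ S Z, ind ((p : ℤ) ∣ (x : ℤ) ^ 2 + 1) := sum_le_sum fun p hp => by
      rw [e1]
      by_cases a : (p : ℤ) ∣ D
      · rw [ind_of a, ind_of (a.mul_right _), ind_not fun b =>
          c1 p hp (by rw [e1, pow_two]; exact mul_dvd_mul a b), add_zero]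
      · rw [ind_not a, zero_add]; exact ind_mono fun b => b.mul_left _
    rw [sum_add_distrib] at this
    linarith [c3 D E e h2 h3, c3 E D (by rw [mul_comm, e]) h3 h2]
  · rw [← mul_sum]
    have a1 : 2 * (1 / ((w + 1 : ℕ) : ℝ)) ≤ δ / 3 := by
      rw [div_le_iff₀ hδ] at hw
      rw [mul_one_div, div_le_iff₀ w0]; push_cast; nlinarith
    have a2 : 64 * (T : ℝ) ^ 2 * (δ / 3 / (64 * T ^ 2 + 1)) ≤ δ / 3 := by
      rw [mul_div_assoc', div_le_iff₀ (by positivity)]; nlinarith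
    linarith

end Pool.Agent.P.MP_b2ceab_nt
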